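import Pool.Agent.H26.AP.Fm

/-!
Both parities with boundedly many prime factors, for one of the two cube classes of `k` and `k ^ 2`.
-/

set_option autoImplicit false

namespace Pool.Agent.H26.AP

open Pool.Agent.H12.PAR (lam lam_mul lam_cases lam_sq lam_cube Phi GG)

theorem lam_two' : lam 2 = -1 := by
  unfold lam
  have h : ArithmeticFunction.cardFactors (2 : ℤ).natAbs = 1 := by
    have e : (2 : ℤ).natAbs = 2 := rfl
    rw [e]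
    exact ArithmeticFunction.cardFactors_apply_prime Nat.prime_two
  rw [h, pow_one]

theorem lam_two_mul' {x : ℤ} (hx : x ≠ 0) : lam (2 * x) = -lam x := by
  rw [lam_mul two_ne_zero hx, lam_two']
  ring

theorem lam_sq_mul' {x y : ℤ} (hx : x ≠ 0) (hy : y ≠ 0) : lam (x ^ 2 * y) = lam y := by
  have e : x ^ 2 * y = x * (x * y) := by ring
  rw [e, lam_mul hx (mul_ne_zero hx hy), lam_mul hx hy, ← mul_assoc, lam_sq, one_mul]

/-- admissible pairs -/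
def Adm (k p q : ℤ) : Prop := p ≠ 0 ∧ q ≠ 0 ∧ p ^ 3 + k * q ^ 3 ≠ 0 ∧ p ^ 3 + 2 * k * q ^ 3 ≠ 0

/-- the sign of a pair -/
def sg (k p q : ℤ) : ℤ := lam (p ^ 3 + k * q ^ 3) * lam (p ^ 3 + 2 * k * q ^ 3)

def M0 (k p q : ℤ) : ℤ := k * q ^ 4 * p ^ 2 * (p ^ 3 + k * q ^ 3) * (p ^ 3 + 2 * k * q ^ 3)

theorem M0_ne {k p q : ℤ} (hk : k ≠ 0) (ha : Adm k p q) : M0 k p q ≠ 0 := by
  obtain ⟨hp, hq, h1, h2⟩ := ha
  exact mul_ne_zero (mul_ne_zero (mul_ne_zero (mul_ne_zero hk (pow_ne_zero 4 hq)) (pow_ne_zero 2 hp)) h1) h2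

theorem sg_cases (k p q : ℤ) : sg k p q = 1 ∨ sg k p q = -1 := by
  unfold sg
  rcases lam_cases (p ^ 3 + k * q ^ 3) with h | h <;> rcases lam_cases (p ^ 3 + 2 * k * q ^ 3) with h' | h' <;>
    rw [h, h'] <;> norm_num

theorem exists_adm (k : ℤ) : ∃ p q : ℤ, Adm k p q := by
  have h0 := abs_nonneg k
  have h1 := neg_abs_le k
  have h3 : 2 * |k| + 2 ≤ (2 * |k| + 2) ^ 3 := le_self_pow₀ (by linarith) (by norm_num)
  exact ⟨2 * |k| + 2, 1, by omega, one_ne_zero, by rw [one_pow, mul_one]; omega, by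
    rw [one_pow, mul_one]; omega⟩

/-- the sign given by an admissible pair -/
theorem own {k p q M : ℤ} (hk : k ≠ 0) (ha : Adm k p q) (hM : M ≠ 0) (hd : M0 k p q ∣ M)
    {Q : Finset (ℤ × ℤ)} (hQK : (1, k * M ^ 3) ∈ Q) (hQ : ∀ e ∈ Q, e.1 ≠ 0) :
    ∃ R : ℕ, Many (St Q (k * M ^ 3) (lam (k * M) * sg k p q) R) := by
  have hM0 := M0_ne hk ha
  obtain ⟨N, rfl⟩ := hd
  obtain ⟨hp, hq, h1, h2⟩ := ha
  have hN : N ≠ 0 := right_ne_zero_of_mul hM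
  have h2' : p ^ 3 + 2 * (k * q ^ 3) ≠ 0 := by rwa [← mul_assoc]
  have hkq : k * q ^ 3 ≠ 0 := mul_ne_zero hk (pow_ne_zero 3 hq)
  refine main (k := k * q ^ 3) (T := p ^ 3) (L := k * q ^ 3 * (p ^ 3 + 2 * (k * q ^ 3)) * N) (j0 := 0)
    hkq (pow_ne_zero 3 hp) h2' (mul_ne_zero (mul_ne_zero hkq h2') hN)
    ⟨N * Phi (k * q ^ 3) (p ^ 3) 0, by ring⟩ (by unfold M0; ring) ?_ Q hQK hQ
  have e1 : k * q ^ 3 * (p ^ 3 + 2 * (k * q ^ 3)) * (k * q ^ 3 * (p ^ 3 + 2 * (k * q ^ 3)) * N) =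
      (k * q ^ 3 * (p ^ 3 + 2 * (k * q ^ 3))) ^ 2 * N := by ring
  have e2 : k * (M0 k p q * N) = (k * q ^ 2 * p) ^ 2 * ((p ^ 3 + k * q ^ 3) * ((p ^ 3 + 2 * k * q ^ 3) * N)) := by
    unfold M0; ring
  rw [e1, lam_sq_mul' (mul_ne_zero hkq h2') hN, e2,
    lam_sq_mul' (mul_ne_zero (mul_ne_zero hk (pow_ne_zero 2 hq)) hp) (mul_ne_zero h1 (mul_ne_zero h2 hN)),
    lam_mul h1 (mul_ne_zero h2 hN), lam_mul h2 hN]
  unfold sg
  have s1 := lam_sq (p ^ 3 + k * q ^ 3)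
  have s2 := lam_sq (p ^ 3 + 2 * k * q ^ 3)
  calc lam (p ^ 3 + k * q ^ 3) * (lam (p ^ 3 + 2 * k * q ^ 3) * lam N) *
        (lam (p ^ 3 + k * q ^ 3) * lam (p ^ 3 + 2 * k * q ^ 3)) =
      (lam (p ^ 3 + k * q ^ 3) * lam (p ^ 3 + k * q ^ 3)) *
        (lam (p ^ 3 + 2 * k * q ^ 3) * lam (p ^ 3 + 2 * k * q ^ 3)) * lam N := by ring
    _ = lam N := by rw [s1, s2]; ring

/-- one sign with boundedly many prime factors -/
def Src (K δ : ℤ) : Prop := ∃ R : ℕ, Many {m : ℤ | m ^ 3 + K ≠ 0 ∧ lam (m ^ 3 + K) = δ ∧ Om (m ^ 3 + K) ≤ R}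

/-- both signs -/
def Both (K : ℤ) : Prop := ∀ δ : ℤ, δ = 1 ∨ δ = -1 → Src K δ

theorem both_of {K δ : ℤ} (hδ : δ = 1 ∨ δ = -1) (h1 : Src K δ) (h2 : Src K (-δ)) : Both K := by
  intro η hη
  have : η = δ ∨ η = -δ := by
    rcases hδ with h | h <;> rcases hη with h' | h' <;> rw [h, h'] <;> norm_num
  rcases this with h | h <;> rw [h] <;> assumption

theorem src_own {k p q M : ℤ} (hk : k ≠ 0) (ha : Adm k p q) (hM : M ≠ 0) (hd : M0 k p q ∣ M) :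
    Src (k * M ^ 3) (lam (k * M) * sg k p q) := by
  obtain ⟨R, hR⟩ := own (Q := {(1, k * M ^ 3)}) hk ha hM hd (by simp) (by
    intro e he
    rw [Finset.mem_singleton] at he
    rw [he]
    exact one_ne_zero)
  refine ⟨R, hR.mono ?_⟩
  rintro m ⟨hl, hm⟩
  have a1 := hm (1, k * M ^ 3) (by simp)
  simp only [one_mul] at a1
  exact ⟨a1.1, hl, a1.2⟩

theorem ne_of_cube {m : ℤ} (h : (1 * m) ^ 3 + (0 : ℤ) ≠ 0) : m ≠ 0 := by
  rintro rfl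
  exact h (by norm_num)

/-- signs coming from the class of `2 k` -/
theorem from2 {k ε p q M : ℤ} (hk : k ≠ 0) (hE : ∀ p q, Adm k p q → sg k p q = ε)
    (ha : Adm (2 * k) p q) (hM : M ≠ 0) (hd : M0 (2 * k) p q ∣ M) :
    Src (k * M ^ 3) (ε * (lam (2 * k * M) * sg (2 * k) p q)) := by
  obtain ⟨R, hR⟩ := own (Q := {(1, 2 * k * M ^ 3), (1, k * M ^ 3), (1, 0)}) (mul_ne_zero two_ne_zero hk)
    ha hM hd (by simp) (by
      intro e he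
      simp only [Finset.mem_insert, Finset.mem_singleton] at he
      rcases he with rfl | rfl | rfl <;> exact one_ne_zero)
  refine ⟨R, hR.mono ?_⟩
  rintro m ⟨hl, hm⟩
  have a1 := hm (1, 2 * k * M ^ 3) (by simp)
  have a2 := hm (1, k * M ^ 3) (by simp)
  have a3 := hm (1, 0) (by simp)
  have hm0 : m ≠ 0 := ne_of_cube a3.1
  simp only [one_mul] at a1 a2
  have r := hE m M ⟨hm0, hM, a2.1, a1.1⟩
  unfold sg at r
  refine ⟨a2.1, ?_, a2.2⟩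
  rw [← hl, ← r, mul_assoc, lam_sq, mul_one]

/-- signs coming from the class of `4 k` -/
theorem from4 {k ε p q M : ℤ} (hk : k ≠ 0) (hE : ∀ p q, Adm k p q → sg k p q = ε)
    (hE2 : ∀ p q, Adm (2 * k) p q → sg (2 * k) p q = -1)
    (ha : Adm (2 * (2 * k)) p q) (hM : M ≠ 0) (hd : M0 (2 * (2 * k)) p q ∣ M) :
    Src (k * M ^ 3) (-ε * (lam (2 * (2 * k) * M) * sg (2 * (2 * k)) p q)) := by
  obtain ⟨R, hR⟩ := own (Q := {(1, 2 * (2 * k) * M ^ 3), (1, 2 * k * M ^ 3), (1, k * M ^ 3), (1, 0)})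
    (mul_ne_zero two_ne_zero (mul_ne_zero two_ne_zero hk)) ha hM hd (by simp) (by
      intro e he
      simp only [Finset.mem_insert, Finset.mem_singleton] at he
      rcases he with rfl | rfl | rfl | rfl <;> exact one_ne_zero)
  refine ⟨R, hR.mono ?_⟩
  rintro m ⟨hl, hm⟩
  have a0 := hm (1, 2 * (2 * k) * M ^ 3) (by simp)
  have a1 := hm (1, 2 * k * M ^ 3) (by simp)
  have a2 := hm (1, k * M ^ 3) (by simp)
  have a3 := hm (1, 0) (by simp)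
  have hm0 : m ≠ 0 := ne_of_cube a3.1
  simp only [one_mul] at a0 a1 a2
  have r := hE m M ⟨hm0, hM, a2.1, a1.1⟩
  have r2 := hE2 m M ⟨hm0, hM, a1.1, a0.1⟩
  unfold sg at r r2
  refine ⟨a2.1, ?_, a2.2⟩
  rw [← hl]
  have s1 := lam_sq (m ^ 3 + 2 * k * M ^ 3)
  have s0 := lam_sq (m ^ 3 + 2 * (2 * k) * M ^ 3)
  calc lam (m ^ 3 + k * M ^ 3) = lam (m ^ 3 + k * M ^ 3) *
        (lam (m ^ 3 + 2 * k * M ^ 3) * lam (m ^ 3 + 2 * k * M ^ 3)) *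
        (lam (m ^ 3 + 2 * (2 * k) * M ^ 3) * lam (m ^ 3 + 2 * (2 * k) * M ^ 3)) := by rw [s1, s0]; ring
    _ = (lam (m ^ 3 + k * M ^ 3) * lam (m ^ 3 + 2 * k * M ^ 3)) *
        (lam (m ^ 3 + 2 * k * M ^ 3) * lam (m ^ 3 + 2 * (2 * k) * M ^ 3)) *
        lam (m ^ 3 + 2 * (2 * k) * M ^ 3) := by ring
    _ = -ε * lam (m ^ 3 + 2 * (2 * k) * M ^ 3) := by rw [r, r2]; ring

/-- the three relations multiplied -/
theorem rel8 {k ε : ℤ} (hE : ∀ p q, Adm k p q → sg k p q = ε)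
    (hE2 : ∀ p q, Adm (2 * k) p q → sg (2 * k) p q = -1)
    (hE4 : ∀ p q, Adm (2 * (2 * k)) p q → sg (2 * (2 * k)) p q = -1) {p q : ℤ} (hp : p ≠ 0) (hq : q ≠ 0)
    (h1 : p ^ 3 + k * q ^ 3 ≠ 0) (h2 : p ^ 3 + 2 * k * q ^ 3 ≠ 0) (h4 : p ^ 3 + 2 * (2 * k) * q ^ 3 ≠ 0)
    (h8 : p ^ 3 + 2 * (2 * (2 * k)) * q ^ 3 ≠ 0) :
    lam (p ^ 3 + k * q ^ 3) * lam (p ^ 3 + 2 * (2 * (2 * k)) * q ^ 3) = ε := by
  have r1 := hE p q ⟨hp, hq, h1, h2⟩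
  have r2 := hE2 p q ⟨hp, hq, h2, h4⟩
  have r4 := hE4 p q ⟨hp, hq, h4, h8⟩
  unfold sg at r1 r2 r4
  have s2 := lam_sq (p ^ 3 + 2 * k * q ^ 3)
  have s4 := lam_sq (p ^ 3 + 2 * (2 * k) * q ^ 3)
  calc lam (p ^ 3 + k * q ^ 3) * lam (p ^ 3 + 2 * (2 * (2 * k)) * q ^ 3) =
      (lam (p ^ 3 + 2 * k * q ^ 3) * lam (p ^ 3 + 2 * k * q ^ 3)) *
        (lam (p ^ 3 + 2 * (2 * k) * q ^ 3) * lam (p ^ 3 + 2 * (2 * k) * q ^ 3)) *
        (lam (p ^ 3 + k * q ^ 3) * lam (p ^ 3 + 2 * (2 * (2 * k)) * q ^ 3)) := by rw [s2, s4]; ring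
    _ = (lam (p ^ 3 + k * q ^ 3) * lam (p ^ 3 + 2 * k * q ^ 3)) *
        (lam (p ^ 3 + 2 * k * q ^ 3) * lam (p ^ 3 + 2 * (2 * k) * q ^ 3)) *
        (lam (p ^ 3 + 2 * (2 * k) * q ^ 3) * lam (p ^ 3 + 2 * (2 * (2 * k)) * q ^ 3)) := by ring
    _ = ε := by rw [r1, r2, r4]; ring

/-- case `ε = 1` -/
theorem caseP {k : ℤ} (hk : k ≠ 0) (hE : ∀ p q, Adm k p q → sg k p q = 1)
    (hE2 : ∀ p q, Adm (2 * k) p q → sg (2 * k) p q = -1)
    (hE4 : ∀ p q, Adm (2 * (2 * k)) p q → sg (2 * (2 * k)) p q = -1) {p q M : ℤ}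
    (ha : Adm k p q) (hM : M ≠ 0) (hd : M0 k p q ∣ M) :
    Src (k * M ^ 3) (-(lam (k * M) * sg k p q)) := by
  obtain ⟨R, hR⟩ := own (Q := {(1, k * M ^ 3), (2, k * M ^ 3), (2, 2 * k * M ^ 3), (2, 2 * (2 * k) * M ^ 3), (1, 0)})
    hk ha hM hd (by simp) (by
      intro e he
      simp only [Finset.mem_insert, Finset.mem_singleton] at he
      rcases he with rfl | rfl | rfl | rfl | rfl <;> norm_num)
  refine ⟨R, hR.double ?_⟩
  rintro m ⟨hl, hm⟩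
  have a0 := hm (1, k * M ^ 3) (by simp)
  have a1 := hm (2, k * M ^ 3) (by simp)
  have a2 := hm (2, 2 * k * M ^ 3) (by simp)
  have a4 := hm (2, 2 * (2 * k) * M ^ 3) (by simp)
  have a3 := hm (1, 0) (by simp)
  have hm0 : m ≠ 0 := ne_of_cube a3.1
  simp only [one_mul] at a0 a1 a2 a4
  have e : (2 * m) ^ 3 + 2 * (2 * (2 * k)) * M ^ 3 = 2 * (2 * (2 * (m ^ 3 + k * M ^ 3))) := by ring
  have n2 : 2 * (m ^ 3 + k * M ^ 3) ≠ 0 := mul_ne_zero two_ne_zero a0.1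
  have n4 : 2 * (2 * (m ^ 3 + k * M ^ 3)) ≠ 0 := mul_ne_zero two_ne_zero n2
  have r := rel8 hE hE2 hE4 (mul_ne_zero two_ne_zero hm0) hM a1.1 a2.1 a4.1
    (by rw [e]; exact mul_ne_zero two_ne_zero n4)
  rw [e, lam_two_mul' n4, lam_two_mul' n2, lam_two_mul' a0.1, hl] at r
  refine ⟨a1.1, ?_, a1.2⟩
  have s : lam (k * M) * sg k p q * (lam (k * M) * sg k p q) = 1 := by
    rw [← hl]
    exact lam_sq _
  calc lam ((2 * m) ^ 3 + k * M ^ 3) = lam ((2 * m) ^ 3 + k * M ^ 3) *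
        (lam (k * M) * sg k p q * (lam (k * M) * sg k p q)) := by rw [s, mul_one]
    _ = -(lam ((2 * m) ^ 3 + k * M ^ 3) * - - -(lam (k * M) * sg k p q)) * (lam (k * M) * sg k p q) := by ring
    _ = -(lam (k * M) * sg k p q) := by rw [r]; ring

/-- case `ε = - 1`: the class of `k ^ 2` -/
theorem caseN {k : ℤ} (hk : k ≠ 0) (hE : ∀ p q, Adm k p q → sg k p q = -1)
    (hE2 : ∀ p q, Adm (2 * k) p q → sg (2 * k) p q = -1)
    (hE4 : ∀ p q, Adm (2 * (2 * k)) p q → sg (2 * (2 * k)) p q = -1) {p q M : ℤ}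
    (ha : Adm (k ^ 2) p q) (hM : M ≠ 0) (hd : M0 (k ^ 2) p q ∣ M) :
    Src (k ^ 2 * M ^ 3) (-(lam (k ^ 2 * M) * sg (k ^ 2) p q)) := by
  obtain ⟨R, hR⟩ := own (Q := {(1, k ^ 2 * M ^ 3), (2, k ^ 2 * M ^ 3), (2, 4 * k ^ 2 * M ^ 3),
    (2, 2 * k ^ 2 * M ^ 3), (1, 0)})
    (pow_ne_zero 2 hk) ha hM hd (by simp) (by
      intro e he
      simp only [Finset.mem_insert, Finset.mem_singleton] at he
      rcases he with rfl | rfl | rfl | rfl | rfl <;> norm_num)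
  refine ⟨R, hR.double ?_⟩
  rintro m ⟨hl, hm⟩
  have a0 := hm (1, k ^ 2 * M ^ 3) (by simp)
  have a1 := hm (2, k ^ 2 * M ^ 3) (by simp)
  have a2 := hm (2, 4 * k ^ 2 * M ^ 3) (by simp)
  have a4 := hm (2, 2 * k ^ 2 * M ^ 3) (by simp)
  have a3 := hm (1, 0) (by simp)
  have hm0 : m ≠ 0 := ne_of_cube a3.1
  simp only [one_mul] at a0 a1 a2 a4
  have e1 : (k * M) ^ 3 + k * m ^ 3 = k * (m ^ 3 + k ^ 2 * M ^ 3) := by ring
  have e8 : (k * M) ^ 3 + 2 * (2 * (2 * k)) * m ^ 3 = k * ((2 * m) ^ 3 + k ^ 2 * M ^ 3) := by ring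
  have n2 : (k * M) ^ 3 + 2 * k * m ^ 3 ≠ 0 := by
    intro h0
    apply mul_ne_zero hk a2.1
    have e : k * ((2 * m) ^ 3 + 4 * k ^ 2 * M ^ 3) = 4 * ((k * M) ^ 3 + 2 * k * m ^ 3) := by ring
    rw [e, h0, mul_zero]
  have n4 : (k * M) ^ 3 + 2 * (2 * k) * m ^ 3 ≠ 0 := by
    intro h0
    apply mul_ne_zero hk a4.1
    have e : k * ((2 * m) ^ 3 + 2 * k ^ 2 * M ^ 3) = 2 * ((k * M) ^ 3 + 2 * (2 * k) * m ^ 3) := by ring
    rw [e, h0, mul_zero]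
  have r := rel8 hE hE2 hE4 (mul_ne_zero hk hM) hm0 (by rw [e1]; exact mul_ne_zero hk a0.1) n2 n4
    (by rw [e8]; exact mul_ne_zero hk a1.1)
  rw [e1, e8, lam_mul hk a0.1, lam_mul hk a1.1, hl] at r
  refine ⟨a1.1, ?_, a1.2⟩
  have s : lam (k ^ 2 * M) * sg (k ^ 2) p q * (lam (k ^ 2 * M) * sg (k ^ 2) p q) = 1 := by
    rw [← hl]
    exact lam_sq _
  have sk := lam_sq k
  calc lam ((2 * m) ^ 3 + k ^ 2 * M ^ 3) = (lam k * lam k) * lam ((2 * m) ^ 3 + k ^ 2 * M ^ 3) *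
        (lam (k ^ 2 * M) * sg (k ^ 2) p q * (lam (k ^ 2 * M) * sg (k ^ 2) p q)) := by rw [s, sk]; ring
    _ = (lam k * (lam (k ^ 2 * M) * sg (k ^ 2) p q) * (lam k * lam ((2 * m) ^ 3 + k ^ 2 * M ^ 3))) *
        (lam (k ^ 2 * M) * sg (k ^ 2) p q) := by ring
    _ = -(lam (k ^ 2 * M) * sg (k ^ 2) p q) := by rw [r]; ring

theorem sgn_prod (x k p q : ℤ) : lam x * sg k p q = 1 ∨ lam x * sg k p q = -1 := by
  rcases lam_cases x with h | h <;> rcases sg_cases k p q with h' | h' <;> rw [h, h'] <;> norm_num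

/-- good classes -/
def Good (k : ℤ) : Prop := ∃ n : ℤ, n ≠ 0 ∧ ∀ M : ℤ, M ≠ 0 → n ∣ M → Both (k * M ^ 3)

/-- the relations in a class which is not good -/
def Ex (k : ℤ) : Prop := (∀ p q, Adm k p q → sg k p q = -1) ∧ (∀ p q, Adm (2 * k) p q → sg (2 * k) p q = -1) ∧
  ∀ p q, Adm (2 * (2 * k)) p q → sg (2 * (2 * k)) p q = -1

theorem good_or_ex {k : ℤ} (hk : k ≠ 0) : Good k ∨ Ex k := by
  have k2 : 2 * k ≠ 0 := mul_ne_zero two_ne_zero hk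
  have k4 : 2 * (2 * k) ≠ 0 := mul_ne_zero two_ne_zero k2
  obtain ⟨p0, q0, h0⟩ := exists_adm k
  obtain ⟨ε, hε⟩ : ∃ ε : ℤ, ε = sg k p0 q0 := ⟨_, rfl⟩
  have hεc : ε = 1 ∨ ε = -1 := by rw [hε]; exact sg_cases _ _ _
  by_cases hE : ∀ p q, Adm k p q → sg k p q = ε
  · by_cases hE2 : ∀ p q, Adm (2 * k) p q → sg (2 * k) p q = -1
    · by_cases hE4 : ∀ p q, Adm (2 * (2 * k)) p q → sg (2 * (2 * k)) p q = -1
      · rcases hεc with h1 | h1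
        · refine Or.inl ⟨M0 k p0 q0, M0_ne hk h0, fun M hM hd => ?_⟩
          rw [h1] at hE
          exact both_of (sgn_prod _ _ _ _) (src_own hk h0 hM hd) (caseP hk hE hE2 hE4 h0 hM hd)
        · rw [h1] at hE
          exact Or.inr ⟨hE, hE2, hE4⟩
      · push Not at hE4
        obtain ⟨p, q, ha, hs⟩ := hE4
        have hs1 : sg (2 * (2 * k)) p q = 1 := (sg_cases _ _ _).resolve_right hs
        refine Or.inl ⟨M0 k p0 q0 * M0 (2 * (2 * k)) p q, mul_ne_zero (M0_ne hk h0) (M0_ne k4 ha),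
          fun M hM hd => ?_⟩
        have g1 := src_own hk h0 hM ((Dvd.intro _ rfl).trans hd)
        have g2 := from4 hk hE hE2 ha hM ((Dvd.intro_left _ rfl).trans hd)
        refine both_of (sgn_prod _ _ _ _) g1 ?_
        have e : -ε * (lam (2 * (2 * k) * M) * sg (2 * (2 * k)) p q) = -(lam (k * M) * sg k p0 q0) := by
          have e1 : 2 * (2 * k) * M = 2 * (2 * (k * M)) := by ring
          rw [hs1, ← hε, e1, lam_two_mul' (mul_ne_zero two_ne_zero (mul_ne_zero hk hM)),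
            lam_two_mul' (mul_ne_zero hk hM)]
          ring
        rw [← e]
        exact g2
    · push Not at hE2
      obtain ⟨p, q, ha, hs⟩ := hE2
      have hs1 : sg (2 * k) p q = 1 := (sg_cases _ _ _).resolve_right hs
      refine Or.inl ⟨M0 k p0 q0 * M0 (2 * k) p q, mul_ne_zero (M0_ne hk h0) (M0_ne k2 ha),
        fun M hM hd => ?_⟩
      have g1 := src_own hk h0 hM ((Dvd.intro _ rfl).trans hd)
      have g2 := from2 hk hE ha hM ((Dvd.intro_left _ rfl).trans hd)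
      refine both_of (sgn_prod _ _ _ _) g1 ?_
      have e : ε * (lam (2 * k * M) * sg (2 * k) p q) = -(lam (k * M) * sg k p0 q0) := by
        rw [hs1, ← hε, mul_assoc 2 k M, lam_two_mul' (mul_ne_zero hk hM)]
        ring
      rw [← e]
      exact g2
  · push Not at hE
    obtain ⟨p, q, ha, hs⟩ := hE
    refine Or.inl ⟨M0 k p0 q0 * M0 k p q, mul_ne_zero (M0_ne hk h0) (M0_ne hk ha), fun M hM hd => ?_⟩
    have g1 := src_own hk h0 hM ((Dvd.intro _ rfl).trans hd)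
    have g2 := src_own hk ha hM ((Dvd.intro_left _ rfl).trans hd)
    refine both_of (sgn_prod _ _ _ _) g1 ?_
    have e : sg k p q = -sg k p0 q0 := by
      rw [← hε]
      rcases sg_cases k p q with h1 | h1 <;> rcases hεc with h2 | h2 <;> rw [h1, h2] at hs ⊢ <;>
        first | (exfalso; exact hs rfl) | norm_num
    rw [e, mul_neg] at g2
    exact g2

/-- in a class which is not good the class of the square is good -/
theorem good_sq {k : ℤ} (hk : k ≠ 0) (h : Ex k) : Good (k ^ 2) := by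
  obtain ⟨hE, hE2, hE4⟩ := h
  obtain ⟨p1, q1, h2⟩ := exists_adm (k ^ 2)
  refine ⟨M0 (k ^ 2) p1 q1, M0_ne (pow_ne_zero 2 hk) h2, fun M hM hd => ?_⟩
  exact both_of (sgn_prod _ _ _ _) (src_own (pow_ne_zero 2 hk) h2 hM hd) (caseN hk hE hE2 hE4 h2 hM hd)

theorem classes {k : ℤ} (hk : k ≠ 0) : Good k ∨ Good (k ^ 2) :=
  (good_or_ex hk).imp_right (good_sq hk)

theorem eq_of_mul {x y : ℤ} (h : lam x * lam y = -1 * -1) : lam x = lam y := by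
  rcases lam_cases x with h1 | h1 <;> rcases lam_cases y with h2 | h2 <;> rw [h1, h2] at h ⊢ <;> norm_num at h

/-- the relations in a class which is not good, in plain form -/
theorem ex_eq {k : ℤ} (h : Ex k) {p q : ℤ} (hp : p ≠ 0) (hq : q ≠ 0)
    (h1 : k * q ^ 3 + p ^ 3 ≠ 0) (h2 : k * q ^ 3 + 2 * p ^ 3 ≠ 0) (h4 : k * q ^ 3 + 4 * p ^ 3 ≠ 0)
    (h8 : k * q ^ 3 + 8 * p ^ 3 ≠ 0) :
    lam (k * q ^ 3 + p ^ 3) = lam (k * q ^ 3 + 2 * p ^ 3) ∧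
    lam (k * q ^ 3 + 2 * p ^ 3) = lam (k * q ^ 3 + 4 * p ^ 3) ∧
    lam (k * q ^ 3 + 4 * p ^ 3) = lam (k * q ^ 3 + 8 * p ^ 3) := by
  obtain ⟨hE, hE2, hE4⟩ := h
  have p2 : 2 * p ≠ 0 := mul_ne_zero two_ne_zero hp
  have m4 : 2 * (k * q ^ 3 + 4 * p ^ 3) ≠ 0 := mul_ne_zero two_ne_zero h4
  have m2 : 2 * (k * q ^ 3 + 2 * p ^ 3) ≠ 0 := mul_ne_zero two_ne_zero h2
  have m22 : 2 * (2 * (k * q ^ 3 + 2 * p ^ 3)) ≠ 0 := mul_ne_zero two_ne_zero m2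
  have m1 : 2 * (k * q ^ 3 + p ^ 3) ≠ 0 := mul_ne_zero two_ne_zero h1
  have m11 : 2 * (2 * (k * q ^ 3 + p ^ 3)) ≠ 0 := mul_ne_zero two_ne_zero m1
  have m111 : 2 * (2 * (2 * (k * q ^ 3 + p ^ 3))) ≠ 0 := mul_ne_zero two_ne_zero m11
  have e8 : (2 * p) ^ 3 + k * q ^ 3 = k * q ^ 3 + 8 * p ^ 3 := by ring
  have e4 : (2 * p) ^ 3 + 2 * k * q ^ 3 = 2 * (k * q ^ 3 + 4 * p ^ 3) := by ring
  have e2 : (2 * p) ^ 3 + 2 * (2 * k) * q ^ 3 = 2 * (2 * (k * q ^ 3 + 2 * p ^ 3)) := by ring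
  have e1 : (2 * p) ^ 3 + 2 * (2 * (2 * k)) * q ^ 3 = 2 * (2 * (2 * (k * q ^ 3 + p ^ 3))) := by ring
  have r1 := hE (2 * p) q ⟨p2, hq, by rw [e8]; exact h8, by rw [e4]; exact m4⟩
  have r2 := hE2 (2 * p) q ⟨p2, hq, by rw [e4]; exact m4, by rw [e2]; exact m22⟩
  have r4 := hE4 (2 * p) q ⟨p2, hq, by rw [e2]; exact m22, by rw [e1]; exact m111⟩
  unfold sg at r1 r2 r4
  rw [e8, e4, lam_two_mul' h4] at r1
  rw [e4, e2, lam_two_mul' h4, lam_two_mul' m2, lam_two_mul' h2] at r2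
  rw [e2, e1, lam_two_mul' m2, lam_two_mul' h2, lam_two_mul' m11, lam_two_mul' m1, lam_two_mul' h1] at r4
  refine ⟨eq_of_mul ?_, eq_of_mul ?_, eq_of_mul ?_⟩ <;> linarith

end Pool.Agent.H26.AP
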