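import Pool.Agent.H26.AP.Cl

/-!
Consequences in terms of the parity of the number of prime factors.
-/

set_option autoImplicit false

namespace Pool.Agent.H26.AP

open Pool.Agent.H12.PAR (lam lam_mul lam_cases lam_sq Phi GG)

theorem even_of_lam {x : ℤ} (e : lam x = 1) : Even (Om x) := by
  unfold lam at e
  unfold Om
  rcases Nat.even_or_odd (ArithmeticFunction.cardFactors x.natAbs) with h | h
  · exact h
  · rw [h.neg_one_pow] at e
    norm_num at e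

theorem odd_of_lam {x : ℤ} (e : lam x = -1) : Odd (Om x) := by
  unfold lam at e
  unfold Om
  rcases Nat.even_or_odd (ArithmeticFunction.cardFactors x.natAbs) with h | h
  · rw [h.neg_one_pow] at e
    norm_num at e
  · exact h

/-- a source as a general parameter choice of the family -/
theorem src_of {b a l j0 K δ : ℤ} (hb : b ≠ 0) (ha : a ≠ 0) (hab : a + 2 * b ≠ 0) (hl : l ≠ 0)
    (hdiv : b * (a + 2 * b) ∣ l * Phi b a j0) (hK : K = b * a ^ 2 * (a + b) ^ 3 * l ^ 3)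
    (hδ : δ = lam (b * (a + 2 * b) * l)) : Src K δ := by
  obtain ⟨R, hR⟩ := main hb ha hab hl hdiv hK hδ {(1, K)} (by simp) (by
    intro e he
    rw [Finset.mem_singleton] at he
    rw [he]
    exact one_ne_zero)
  refine ⟨R, hR.mono ?_⟩
  rintro m ⟨hl, hm⟩
  have a1 := hm (1, K) (by simp)
  simp only [one_mul] at a1
  exact ⟨a1.1, hl, a1.2⟩

/-- one parity, every `k` -/
theorem one_parity {k N : ℤ} (hk : k ≠ 0) (hN : N ≠ 0) :
    Src (k * (k * (k + 1) * (2 * k + 1) * N) ^ 3) (lam N) := by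
  have h2 : 2 * k + 1 ≠ 0 := by omega
  have hl : k * (2 * k + 1) * N ≠ 0 := mul_ne_zero (mul_ne_zero hk h2) hN
  refine src_of (b := k) (a := 1) (l := k * (2 * k + 1) * N) (j0 := 0) hk one_ne_zero (by omega) hl
    ⟨N * Phi k 1 0, by ring⟩ (by ring) ?_
  have e : k * (1 + 2 * k) * (k * (2 * k + 1) * N) = (k * (2 * k + 1)) ^ 2 * N := by ring
  rw [e, lam_sq_mul' (mul_ne_zero hk h2) hN]

theorem lam_three' : lam 3 = -1 := by
  unfold lam
  have h : ArithmeticFunction.cardFactors (3 : ℤ).natAbs = 1 := by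
    have e : (3 : ℤ).natAbs = 3 := rfl
    rw [e]
    exact ArithmeticFunction.cardFactors_apply_prime Nat.prime_three
  rw [h, pow_one]

/-- `K = 16` -/
theorem sixteen : Src 16 (-1) := by
  refine src_of (b := 2) (a := -1) (l := 2) (j0 := 1) two_ne_zero (by norm_num) (by norm_num) two_ne_zero
    ⟨-5, by unfold Phi GG; norm_num⟩ (by norm_num) ?_
  have e : (2 : ℤ) * (-1 + 2 * 2) * 2 = 2 ^ 2 * 3 := by norm_num
  rw [e, lam_sq_mul' two_ne_zero (by norm_num), lam_three']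

/-- `K = 2 (12 N) ^ 3` -/
theorem both2 {N : ℤ} (hN : N ≠ 0) : Both (2 * (12 * N) ^ 3) := by
  have h1 : Src (2 * (12 * N) ^ 3) (lam N) := by
    refine src_of (b := 1) (a := -4) (l := -2 * N) (j0 := 0) one_ne_zero (by norm_num) (by norm_num)
      (mul_ne_zero (by norm_num) hN) ⟨N * Phi 1 (-4) 0, by ring⟩ (by ring) ?_
    have e : 1 * (-4 + 2 * 1) * (-2 * N) = 2 ^ 2 * N := by ring
    rw [e, lam_sq_mul' two_ne_zero hN]
  have h2 : Src (2 * (12 * N) ^ 3) (-lam N) := by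
    refine src_of (b := 2) (a := -1) (l := 12 * N) (j0 := 0) two_ne_zero (by norm_num) (by norm_num)
      (mul_ne_zero (by norm_num) hN) ⟨2 * N * Phi 2 (-1) 0, by ring⟩ (by ring) ?_
    have e : 2 * (-1 + 2 * 2) * (12 * N) = 6 ^ 2 * (2 * N) := by ring
    rw [e, lam_sq_mul' (by norm_num) (mul_ne_zero two_ne_zero hN), lam_two_mul' hN]
  exact both_of (lam_cases N) h1 h2

/-- infinitely many natural `m` for `K` or for `- K` -/
theorem pos_of_src {K δ : ℤ} (h : Src K δ) : ∃ R : ℕ,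
    {m : ℕ | (m : ℤ) ^ 3 + K ≠ 0 ∧ lam ((m : ℤ) ^ 3 + K) = δ ∧ Om ((m : ℤ) ^ 3 + K) ≤ R}.Infinite ∨
    {m : ℕ | (m : ℤ) ^ 3 + -K ≠ 0 ∧ lam ((m : ℤ) ^ 3 + -K) = δ ∧ Om ((m : ℤ) ^ 3 + -K) ≤ R}.Infinite := by
  obtain ⟨R, hR⟩ := h
  refine ⟨R, ?_⟩
  by_contra hcon
  rw [not_or, Set.not_infinite, Set.not_infinite] at hcon
  obtain ⟨h1, h2⟩ := hcon
  refine hR.infinite (((h1.image (fun m : ℕ => (m : ℤ))).union (h2.image (fun m : ℕ => -(m : ℤ)))).subset ?_)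
  rintro m ⟨a1, a2, a3⟩
  rcases le_or_gt 0 m with h0 | h0
  · left
    refine ⟨m.toNat, ?_, Int.toNat_of_nonneg h0⟩
    have e : ((m.toNat : ℕ) : ℤ) = m := Int.toNat_of_nonneg h0
    show ((m.toNat : ℕ) : ℤ) ^ 3 + K ≠ 0 ∧ lam (((m.toNat : ℕ) : ℤ) ^ 3 + K) = δ ∧
      Om (((m.toNat : ℕ) : ℤ) ^ 3 + K) ≤ R
    rw [e]
    exact ⟨a1, a2, a3⟩
  · right
    have e : (((-m).toNat : ℕ) : ℤ) = -m := Int.toNat_of_nonneg (by omega)
    refine ⟨(-m).toNat, ?_, ?_⟩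
    · show (((-m).toNat : ℕ) : ℤ) ^ 3 + -K ≠ 0 ∧ lam ((((-m).toNat : ℕ) : ℤ) ^ 3 + -K) = δ ∧
        Om ((((-m).toNat : ℕ) : ℤ) ^ 3 + -K) ≤ R
      have e2 : (-m) ^ 3 + -K = -(m ^ 3 + K) := by ring
      rw [e, e2]
      refine ⟨neg_ne_zero.2 a1, ?_, ?_⟩
      · unfold lam at a2 ⊢
        rwa [Int.natAbs_neg]
      · unfold Om at a3 ⊢
        rwa [Int.natAbs_neg]
    · show -(((-m).toNat : ℕ) : ℤ) = m
      rw [e, neg_neg]

end Pool.Agent.H26.AP
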