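import Pool.Agent.H26.AP.Sv

/-!
Sets with at least `c X^(1/6) / (log X)^E` elements of absolute value at most `X`.
-/

set_option autoImplicit false

namespace Pool.Agent.H26.AP

/-- at least `c X^(1/6) / (log X)^E` of the integers `|m| ≤ X` are in `A`, for all large `X` -/
def Many (A : Set ℤ) : Prop := ∃ (E : ℕ) (c : ℝ), 0 < c ∧ ∃ X0 : ℕ, ∀ X : ℕ, X0 ≤ X →
  c * ((X : ℝ) ^ ((1 : ℝ) / 6) / Real.log X ^ E) ≤ ({m : ℤ | |m| ≤ X ∧ m ∈ A}.ncard : ℝ)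

theorem fin_aux (A : Set ℤ) (X : ℕ) : {m : ℤ | |m| ≤ X ∧ m ∈ A}.Finite := by
  refine (Set.finite_Icc (-(X : ℤ)) X).subset ?_
  intro m hm
  exact Set.mem_Icc.2 (abs_le.1 hm.1)

theorem Many.mono {A B : Set ℤ} (h : A ⊆ B) (hA : Many A) : Many B := by
  obtain ⟨E, c, hc, X0, hX⟩ := hA
  refine ⟨E, c, hc, X0, fun X hXX => (hX X hXX).trans ?_⟩
  have h1 : {m : ℤ | |m| ≤ X ∧ m ∈ A}.ncard ≤ {m : ℤ | |m| ≤ X ∧ m ∈ B}.ncard :=
    Set.ncard_le_ncard (fun m hm => ⟨hm.1, h hm.2⟩) (fin_aux B X)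
  exact_mod_cast h1

theorem Many.double {A B : Set ℤ} (h : ∀ m ∈ A, 2 * m ∈ B) (hA : Many A) : Many B := by
  obtain ⟨E, c, hc, X0, hX⟩ := hA
  refine ⟨E, c / 2, by positivity, 2 * X0 + 6, fun X hXX => ?_⟩
  obtain ⟨Y, hY⟩ : ∃ Y : ℕ, Y = X / 2 := ⟨_, rfl⟩
  have hY0 : X0 ≤ Y := by omega
  have hY3 : 3 ≤ Y := by omega
  have h2Y : 2 * Y ≤ X := by omega
  have h1 := hX Y hY0
  have h2 : {m : ℤ | |m| ≤ Y ∧ m ∈ A}.ncard ≤ {m : ℤ | |m| ≤ X ∧ m ∈ B}.ncard := by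
    refine Set.ncard_le_ncard_of_injOn (fun m => 2 * m) ?_ ?_ (fin_aux B X)
    · rintro m ⟨hm, hmA⟩
      refine ⟨?_, h m hmA⟩
      rw [abs_mul, abs_of_pos (by norm_num : (0 : ℤ) < 2)]
      omega
    · intro a _ b _ hab
      have : (2 : ℤ) * a = 2 * b := hab
      omega
  have h3 : (({m : ℤ | |m| ≤ Y ∧ m ∈ A}.ncard : ℕ) : ℝ) ≤ ({m : ℤ | |m| ≤ X ∧ m ∈ B}.ncard : ℝ) := by
    exact_mod_cast h2
  refine le_trans ?_ (h1.trans h3)
  have hXr : (X : ℝ) / 64 ≤ Y := by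
    have h4 : X ≤ 64 * Y := by omega
    have h5 : (X : ℝ) ≤ 64 * Y := by exact_mod_cast h4
    linarith
  have hYr : (3 : ℝ) ≤ Y := by exact_mod_cast hY3
  have hYX : (Y : ℝ) ≤ X := by
    have : Y ≤ X := by omega
    exact_mod_cast this
  have h6 : (X : ℝ) ^ ((1 : ℝ) / 6) / 2 ≤ (Y : ℝ) ^ ((1 : ℝ) / 6) := by
    calc (X : ℝ) ^ ((1 : ℝ) / 6) / 2 = ((X : ℝ) / 64) ^ ((1 : ℝ) / 6) := by
          rw [Real.div_rpow (Nat.cast_nonneg _) (by norm_num)]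
          congr 1
          rw [show (64 : ℝ) = 2 ^ (6 : ℕ) by norm_num, ← Real.rpow_natCast, ← Real.rpow_mul (by norm_num)]
          norm_num
      _ ≤ _ := Real.rpow_le_rpow (by positivity) hXr (by norm_num)
  have hl : 0 < Real.log Y := Real.log_pos (by linarith)
  have hlX : Real.log Y ≤ Real.log X := Real.log_le_log (by linarith) hYX
  have h7 : (X : ℝ) ^ ((1 : ℝ) / 6) / 2 / Real.log X ^ E ≤ (Y : ℝ) ^ ((1 : ℝ) / 6) / Real.log Y ^ E := by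
    exact div_le_div₀ (by positivity) h6 (by positivity) (pow_le_pow_left₀ hl.le hlX E)
  calc c / 2 * ((X : ℝ) ^ ((1 : ℝ) / 6) / Real.log X ^ E) =
      c * ((X : ℝ) ^ ((1 : ℝ) / 6) / 2 / Real.log X ^ E) := by ring
    _ ≤ _ := mul_le_mul_of_nonneg_left h7 hc.le

theorem Many.infinite {A : Set ℤ} (hA : Many A) : A.Infinite := by
  obtain ⟨E, c, hc, X0, hX⟩ := hA
  intro hfin
  have h := (isLittleO_log_rpow_rpow_atTop (E : ℝ) (show (0 : ℝ) < 1 / 12 by norm_num)).def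
    (show (0 : ℝ) < 1 by norm_num)
  obtain ⟨Y₁, h1⟩ := h.exists_forall_of_atTop
  obtain ⟨X, hXd⟩ := exists_nat_ge (max (max (X0 : ℝ) Y₁) (max 3 ((((A.ncard : ℝ) + 1) / c) ^ (12 : ℕ))))
  have hX0 : (X0 : ℝ) ≤ X := ((le_max_left _ _).trans (le_max_left _ _)).trans hXd
  have hX1 : Y₁ ≤ X := ((le_max_right _ _).trans (le_max_left _ _)).trans hXd
  have hX3 : (3 : ℝ) ≤ X := ((le_max_left _ _).trans (le_max_right _ _)).trans hXd
  have hXb : (((A.ncard : ℝ) + 1) / c) ^ (12 : ℕ) ≤ X := ((le_max_right _ _).trans (le_max_right _ _)).trans hXd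
  have hl : 0 < Real.log X := Real.log_pos (by linarith)
  have h2 := h1 X hX1
  rw [Real.rpow_natCast, Real.norm_of_nonneg (by positivity), Real.norm_of_nonneg (by positivity), one_mul] at h2
  have h3 : ((A.ncard : ℝ) + 1) / c ≤ (X : ℝ) ^ ((1 : ℝ) / 12) := by
    have h4 : ((X : ℝ) ^ ((1 : ℝ) / 12)) ^ (12 : ℕ) = X := by
      rw [← Real.rpow_natCast, ← Real.rpow_mul (by positivity)]
      norm_num
    rw [← h4] at hXb
    exact le_of_pow_le_pow_left₀ (by norm_num) (by positivity) hXb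
  have h5 : (X : ℝ) ^ ((1 : ℝ) / 12) ≤ (X : ℝ) ^ ((1 : ℝ) / 6) / Real.log X ^ E := by
    rw [le_div_iff₀ (by positivity)]
    calc (X : ℝ) ^ ((1 : ℝ) / 12) * Real.log X ^ E ≤ (X : ℝ) ^ ((1 : ℝ) / 12) * (X : ℝ) ^ ((1 : ℝ) / 12) :=
          mul_le_mul_of_nonneg_left h2 (by positivity)
      _ = (X : ℝ) ^ ((1 : ℝ) / 6) := by
          rw [← Real.rpow_add (by linarith)]
          norm_num
  have h6 := hX X (by exact_mod_cast hX0)
  have h7 : {m : ℤ | |m| ≤ X ∧ m ∈ A}.ncard ≤ A.ncard := Set.ncard_le_ncard (fun m hm => hm.2) hfin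
  have h8 : (({m : ℤ | |m| ≤ X ∧ m ∈ A}.ncard : ℕ) : ℝ) ≤ A.ncard := by exact_mod_cast h7
  have h9 := mul_le_mul_of_nonneg_left (h3.trans h5) hc.le
  rw [mul_div_cancel₀ _ hc.ne'] at h9
  linarith

end Pool.Agent.H26.AP
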