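import Pool.Agent.H12.PAR.Bound
import Pool.Agent.H26.AP.Mn

/-!
One parity, boundedly many prime factors, with a lower bound for the count: the polynomial family H12.PAR and the
sieve for the product of its five values.
-/

set_option autoImplicit false

namespace Pool.Agent.H26.AP

open Polynomial
open Pool.Agent.H12.PAR (lam lam_mul lam_cases lam_sq Phi GG aa bb cc vv uu J0 J0_pos)

/-- polynomial functions -/
def IsP (f : ℤ → ℤ) : Prop := ∃ p : ℤ[X], ∀ y, p.eval y = f y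

theorem IsP.const (c : ℤ) : IsP (fun _ => c) := ⟨C c, fun y => by simp⟩

theorem IsP.id' : IsP (fun y => y) := ⟨X, fun y => by simp⟩

theorem IsP.add {f g : ℤ → ℤ} (hf : IsP f) (hg : IsP g) : IsP (fun y => f y + g y) := by
  obtain ⟨p, hp⟩ := hf
  obtain ⟨q, hq⟩ := hg
  exact ⟨p + q, fun y => by rw [eval_add, hp, hq]⟩

theorem IsP.mul {f g : ℤ → ℤ} (hf : IsP f) (hg : IsP g) : IsP (fun y => f y * g y) := by
  obtain ⟨p, hp⟩ := hf
  obtain ⟨q, hq⟩ := hg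
  exact ⟨p * q, fun y => by rw [eval_mul, hp, hq]⟩

theorem IsP.congr {f g : ℤ → ℤ} (hf : IsP f) (h : ∀ y, g y = f y) : IsP g := by
  obtain ⟨p, hp⟩ := hf
  exact ⟨p, fun y => by rw [hp, h]⟩

/-- difference quotient of Phi -/
def HH (k T j' j : ℤ) : ℤ := T * (j' + j + 1) * (-T * (GG k T j' ^ 2 + GG k T j' * GG k T j +
      GG k T j ^ 2) + 3 * k * T * (GG k T j' + GG k T j) + k * T * (k + 2 * T))

theorem Phi_sub (k T j' j : ℤ) : Phi k T j' - Phi k T j = (j' - j) * HH k T j' j := by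
  have e : Phi k T j' - Phi k T j = (GG k T j' - GG k T j) *
        (-T * (GG k T j' ^ 2 + GG k T j' * GG k T j + GG k T j ^ 2) +
          3 * k * T * (GG k T j' + GG k T j) + k * T * (k + 2 * T)) := by
    unfold Phi; ring
  rw [e, Pool.Agent.H12.PAR.GG_sub]
  unfold HH
  ring

theorem IsP_GG (k T : ℤ) {j : ℤ → ℤ} (hj : IsP j) : IsP (fun y => GG k T (j y)) := by
  refine (((IsP.const T).mul (((hj.mul hj).add hj).add (IsP.const 1))).add (IsP.const (3 * k))).congr ?_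
  intro y
  unfold GG
  ring

theorem IsP_HH (k T j0 : ℤ) {j : ℤ → ℤ} (hj : IsP j) : IsP (fun y => HH k T (j y) j0) := by
  have g := IsP_GG k T hj
  refine (((IsP.const T).mul (hj.add (IsP.const (j0 + 1)))).mul
    ((((IsP.const (-T)).mul (((g.mul g).add (g.mul (IsP.const (GG k T j0)))).add
      (IsP.const (GG k T j0 ^ 2)))).add ((IsP.const (3 * k * T)).mul (g.add (IsP.const (GG k T j0))))).add
        (IsP.const (k * T * (k + 2 * T))))).congr ?_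
  intro y
  unfold HH
  ring

private theorem cube_inj {x y K : ℤ} (hx : x ^ 3 + K = 0) (hy : y ^ 3 + K = 0) : x = y := by
  have h : x ^ 3 = y ^ 3 := by linarith
  exact (Odd.strictMono_pow (by decide : Odd 3)).injective h

private theorem ev_ne (f : ℤ → ℤ) (I0 : ℤ) (hf : ∀ y y', I0 ≤ y → I0 ≤ y' → f y = f y' → y = y') (K : ℤ) :
    ∃ I : ℤ, I0 ≤ I ∧ ∀ y, I ≤ y → f y ^ 3 + K ≠ 0 := by
  by_cases h : ∃ i, I0 ≤ i ∧ f i ^ 3 + K = 0
  · obtain ⟨i, hi0, hi⟩ := h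
    refine ⟨i + 1, by omega, fun i' hi' h0 => ?_⟩
    have := hf _ _ (by omega) hi0 (cube_inj h0 hi)
    omega
  · push Not at h
    exact ⟨I0, le_rfl, fun y hy => h y hy⟩

private theorem lam_neg (x : ℤ) : lam (-x) = lam x := by
  unfold lam; rw [Int.natAbs_neg]

/-- integers m with the wanted value of lambda and at most R prime factors of the numbers (e.1 m)^3+e.2, e in Q -/
def St (Q : Finset (ℤ × ℤ)) (K δ : ℤ) (R : ℕ) : Set ℤ :=
  {m : ℤ | lam (m ^ 3 + K) = δ ∧ ∀ e ∈ Q, (e.1 * m) ^ 3 + e.2 ≠ 0 ∧ Om ((e.1 * m) ^ 3 + e.2) ≤ R}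

theorem main {k T L j0 : ℤ} (hk : k ≠ 0) (hh : T ≠ 0) (h2 : T + 2 * k ≠ 0) (hL : L ≠ 0)
    (hdiv : k * (T + 2 * k) ∣ L * Phi k T j0) {K δ : ℤ} (hK : K = k * T ^ 2 * (T + k) ^ 3 * L ^ 3)
    (hδ : δ = lam (k * (T + 2 * k) * L)) (Q : Finset (ℤ × ℤ)) (hQK : (1, K) ∈ Q) (hQ : ∀ e ∈ Q, e.1 ≠ 0) :
    ∃ R : ℕ, Many (St Q K δ R) := by
  classical
  obtain ⟨D, hD⟩ : ∃ D : ℤ, D = k * (T + 2 * k) := ⟨_, rfl⟩
  have hD0 : D ≠ 0 := by rw [hD]; exact mul_ne_zero hk h2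
  have hD2 : 1 ≤ D ^ 2 := by
    have : 0 < D ^ 2 := by positivity
    omega
  obtain ⟨q0, hq0⟩ := hdiv
  obtain ⟨jj, hjj⟩ : ∃ jj : ℤ → ℤ, ∀ y, jj y = j0 + D ^ 2 * y := ⟨fun y => j0 + D ^ 2 * y, fun _ => rfl⟩
  obtain ⟨q, hqd⟩ : ∃ q : ℤ → ℤ, ∀ y, q y = q0 + L * D * y * HH k T (jj y) j0 := ⟨_, fun _ => rfl⟩
  have hq : ∀ y, k * (T + 2 * k) * q y = L * Phi k T (jj y) := by
    intro y
    have h1 := Phi_sub k T (jj y) j0
    have e : jj y - j0 = D ^ 2 * y := by rw [hjj]; ring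
    rw [e] at h1
    rw [hqd, ← hD]
    rw [← hD] at hq0
    linear_combination (-1) * hq0 - L * h1
  have hj : IsP jj := ((IsP.const j0).add ((IsP.const (D ^ 2)).mul IsP.id')).congr hjj
  have hG := IsP_GG k T hj
  have hqP : IsP q := ((IsP.const q0).add (((IsP.const (L * D)).mul IsP.id').mul (IsP_HH k T j0 hj))).congr hqd
  let F : Fin 5 → ℤ → ℤ := ![fun y => aa k T L (jj y), fun y => bb k T L (jj y),
    fun y => cc k T L (jj y), fun y => vv k T L (jj y), fun y => uu k T L (jj y) (q y)]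
  have hvP : IsP (fun y => vv k T L (jj y)) :=
    (((IsP.const (-(T * L))).mul hG).add (IsP.const (T * L * (T + k)))).congr fun y => by
      unfold vv; ring
  have hFP : ∀ t, IsP (F t) := by
    intro t
    fin_cases t
    · refine ((((IsP.const (L * T)).mul (hj.mul hG)).add ((IsP.const (L * T)).mul hG)).add
        (IsP.const (-L * (k * (T + k))))).congr fun y => ?_
      show aa k T L (jj y) = _
      unfold aa; ring
    · refine (((IsP.const (-L * T)).mul (hj.mul hG)).add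
        (IsP.const (-L * (k * (T + k))))).congr fun y => ?_
      show bb k T L (jj y) = _
      unfold bb; ring
    · refine (((IsP.const (-(T * L))).mul hG).add (IsP.const (T * L * k))).congr fun y => ?_
      show cc k T L (jj y) = _
      unfold cc; ring
    · exact hvP
    · refine (((IsP.const (-1)).mul hqP).add ((IsP.const (-1)).mul hvP)).congr fun y => ?_
      show uu k T L (jj y) (q y) = _
      unfold uu; ring
  -- the threshold
  obtain ⟨I1, hI1⟩ : ∃ I1 : ℤ, I1 = |j0| + J0 k T := ⟨_, rfl⟩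
  have hJ0 := J0_pos k T
  have hI10 : 1 ≤ I1 := by
    rw [hI1]
    have := abs_nonneg j0
    linarith
  have hjJ : ∀ y, I1 ≤ y → J0 k T ≤ jj y := by
    intro y hy
    have h3 : y ≤ D ^ 2 * y := by nlinarith
    have h4 := neg_abs_le j0
    rw [hjj]
    linarith
  have hj1 : ∀ y, I1 ≤ y → 1 ≤ jj y := fun y hy => hJ0.trans (hjJ y hy)
  have hjinj : ∀ y y', jj y = jj y' → y = y' := by
    intro y y' e
    rw [hjj, hjj] at e
    have e1 : D ^ 2 * y = D ^ 2 * y' := by linarith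
    exact mul_left_cancel₀ (by omega : D ^ 2 ≠ 0) e1
  have hF : ∀ t y y', I1 ≤ y → I1 ≤ y' → F t y = F t y' → y = y' := by
    intro t y y' hy hy' e
    have a1 := hjJ y hy
    have a2 := hjJ y' hy'
    fin_cases t
    · exact hjinj _ _ (Pool.Agent.H12.PAR.aa_inj hh hL a1 a2 e)
    · exact hjinj _ _ (Pool.Agent.H12.PAR.bb_inj hh hL a1 a2 e)
    · exact hjinj _ _ (Pool.Agent.H12.PAR.cc_inj hh hL (by linarith) (by linarith) e)
    · exact hjinj _ _ (Pool.Agent.H12.PAR.vv_inj hh hL (by linarith) (by linarith) e)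
    · exact hjinj _ _ (Pool.Agent.H12.PAR.uu_inj hh hL a1 a2 (hq y) (hq y') e)
  -- bounds
  have hbd : ∀ t, ∃ C : ℤ, 0 ≤ C ∧ ∀ y, I1 ≤ y → |F t y| ≤ C * (jj y) ^ 6 := by
    intro t
    fin_cases t
    · obtain ⟨C, hC, hb⟩ := Pool.Agent.H12.PAR.PB_aa k T L
      exact ⟨C, hC, fun y hy => hb _ (hj1 y hy)⟩
    · obtain ⟨C, hC, hb⟩ := Pool.Agent.H12.PAR.PB_bb k T L
      exact ⟨C, hC, fun y hy => hb _ (hj1 y hy)⟩
    · obtain ⟨C, hC, hb⟩ := Pool.Agent.H12.PAR.PB_cc k T L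
      exact ⟨C, hC, fun y hy => hb _ (hj1 y hy)⟩
    · obtain ⟨C, hC, hb⟩ := Pool.Agent.H12.PAR.PB_vv k T L
      exact ⟨C, hC, fun y hy => hb _ (hj1 y hy)⟩
    · obtain ⟨C, hC, hb⟩ := Pool.Agent.H12.PAR.uu_bound k T L hk h2
      exact ⟨C, hC, fun y hy => hb _ _ (hj1 y hy) (hq y)⟩
  choose Cb hCb0 hCb using hbd
  obtain ⟨B, hB⟩ : ∃ B : ℤ, B = |j0| + D ^ 2 := ⟨_, rfl⟩
  have hB0 : 0 ≤ B := by
    have := abs_nonneg j0
    rw [hB]
    positivity
  have hjB : ∀ y, I1 ≤ y → jj y ≤ B * y := by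
    intro y hy
    have h4 := le_abs_self j0
    have h5 := abs_nonneg j0
    rw [hjj, hB]
    nlinarith
  obtain ⟨Cm, hCm⟩ : ∃ Cm : ℤ, Cm = (∑ t, Cb t) * B ^ 6 + 1 := ⟨_, rfl⟩
  have hS0 : 0 ≤ ∑ t, Cb t := Finset.sum_nonneg (fun t _ => hCb0 t)
  have hCm1 : 1 ≤ Cm := by
    have : 0 ≤ (∑ t, Cb t) * B ^ 6 := by positivity
    linarith
  have hFb : ∀ t y, I1 ≤ y → |F t y| ≤ Cm * y ^ 6 := by
    intro t y hy
    have h3 : Cb t ≤ ∑ t, Cb t := Finset.single_le_sum (fun t _ => hCb0 t) (Finset.mem_univ t)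
    have hjy := hj1 y hy
    have h4 : (jj y) ^ 6 ≤ (B * y) ^ 6 := pow_le_pow_left₀ (by linarith) (hjB y hy) 6
    calc |F t y| ≤ Cb t * (jj y) ^ 6 := hCb t y hy
      _ ≤ (∑ t, Cb t) * (B * y) ^ 6 := mul_le_mul h3 h4 (by positivity) hS0
      _ = ((∑ t, Cb t) * B ^ 6) * y ^ 6 := by ring
      _ ≤ Cm * y ^ 6 := by
          apply mul_le_mul_of_nonneg_right _ (by positivity)
          linarith
  -- nonvanishing
  have hev : ∀ t, ∀ e ∈ Q, ∃ I : ℤ, ∀ y, I ≤ y → (e.1 * F t y) ^ 3 + e.2 ≠ 0 := by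
    intro t e he
    obtain ⟨I, _, hI⟩ := ev_ne (fun y => e.1 * F t y) I1 (fun y y' hy hy' h =>
      hF t y y' hy hy' (mul_left_cancel₀ (hQ e he) h)) e.2
    exact ⟨I, hI⟩
  choose! I hI using hev
  obtain ⟨y0, hy0⟩ : ∃ y0 : ℤ, ∀ t, ∀ e ∈ Q, I t e ≤ y0 := by
    refine ⟨∑ t, ∑ e ∈ Q, |I t e|, fun t e he => (le_abs_self _).trans ?_⟩
    refine (Finset.single_le_sum (f := fun e => |I t e|) (fun e _ => abs_nonneg _) he).trans ?_
    exact Finset.single_le_sum (f := fun t => ∑ e ∈ Q, |I t e|)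
      (fun t _ => Finset.sum_nonneg fun e _ => abs_nonneg _) (Finset.mem_univ t)
  choose p hp using hFP
  obtain ⟨P, hP⟩ : ∃ P : ℤ[X], ∀ y, P.eval y = ∏ t, ∏ e ∈ Q, ((e.1 * F t y) ^ 3 + e.2) := by
    refine ⟨∏ t, ∏ e ∈ Q, ((C e.1 * p t) ^ 3 + C e.2), fun y => ?_⟩
    rw [eval_prod]
    refine Finset.prod_congr rfl fun t _ => ?_
    rw [eval_prod]
    refine Finset.prod_congr rfl fun e _ => ?_
    rw [eval_add, eval_pow, eval_mul, eval_C, eval_C, hp]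
  have hPy0 : P.eval y0 ≠ 0 := by
    rw [hP]
    exact Finset.prod_ne_zero_iff.2 fun t _ => Finset.prod_ne_zero_iff.2 fun e he =>
      hI t e he y0 (hy0 t e he)
  obtain ⟨R, E, c, Y0, hc, hY0, hmain⟩ := bounded_values P y0 hPy0 I1.toNat
  have hCr : (1 : ℝ) ≤ Cm := by exact_mod_cast hCm1
  have hCr0 : (0 : ℝ) < Cm := by linarith
  obtain ⟨X0, hX0⟩ := exists_nat_ge ((Cm : ℝ) * Y0 ^ 6)
  refine ⟨R, E, c / (5 * (Cm : ℝ) ^ ((1 : ℝ) / 6)), by positivity, X0, fun X hX => ?_⟩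
  have hXr : (Cm : ℝ) * Y0 ^ 6 ≤ X := hX0.trans (by exact_mod_cast hX)
  obtain ⟨Y, hYd⟩ : ∃ Y : ℝ, Y = ((X : ℝ) / Cm) ^ ((1 : ℝ) / 6) := ⟨_, rfl⟩
  have hYn : 0 ≤ Y := by rw [hYd]; positivity
  have hY6 : Y ^ 6 = (X : ℝ) / Cm := by
    rw [hYd, ← Real.rpow_natCast, ← Real.rpow_mul (by positivity)]
    norm_num
  have hYY0 : Y0 ≤ Y := by
    have h1 : Y0 ^ 6 ≤ Y ^ 6 := by
      rw [hY6, le_div_iff₀ hCr0]
      linarith
    exact le_of_pow_le_pow_left₀ (by norm_num) hYn h1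
  have hY3 : 3 ≤ Y := hY0.trans hYY0
  have hYX : Y ≤ X := by
    have h1 : Y ≤ Y ^ 6 := le_self_pow₀ (by linarith) (by norm_num)
    rw [hY6] at h1
    exact h1.trans (div_le_self (Nat.cast_nonneg _) hCr)
  obtain ⟨S, hS1, hS2, hS3⟩ := hmain Y hYY0
  have hSI : ∀ y ∈ S, I1 ≤ y := by
    intro y hy
    have h1 := (hS1 y hy).1
    rw [Int.toNat_of_nonneg (by omega)] at h1
    exact h1.le
  have hneQ : ∀ y ∈ S, ∀ t, ∀ e ∈ Q, (e.1 * F t y) ^ 3 + e.2 ≠ 0 := by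
    intro y hy t e he
    have h1 := (hS3 y hy).1
    rw [hP] at h1
    exact Finset.prod_ne_zero_iff.1 (Finset.prod_ne_zero_iff.1 h1 t (Finset.mem_univ t)) e he
  have hOm : ∀ y ∈ S, ∀ t, ∀ e ∈ Q, Om ((e.1 * F t y) ^ 3 + e.2) ≤ R := by
    intro y hy t e he
    refine (Om_le_of_dvd (hS3 y hy).1 ?_).trans (hS3 y hy).2
    rw [hP]
    exact (Finset.dvd_prod_of_mem (fun e : ℤ × ℤ => (e.1 * F t y) ^ 3 + e.2) he).trans
      (Finset.dvd_prod_of_mem (fun t => ∏ e ∈ Q, ((e.1 * F t y) ^ 3 + e.2)) (Finset.mem_univ t))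
  have hne : ∀ y ∈ S, ∀ t, F t y ^ 3 + K ≠ 0 := by
    intro y hy t
    have h1 := hneQ y hy t _ hQK
    simpa using h1
  have hex : ∀ y ∈ S, ∃ t, lam (F t y ^ 3 + K) = δ := by
    intro y hy
    have hs : -(k * (T + 2 * k) * L) ≠ 0 := neg_ne_zero.mpr (mul_ne_zero (mul_ne_zero hk h2) hL)
    have r3 := Pool.Agent.H12.PAR.rel3 (hq y)
    rw [← hK] at r3
    have h5 := Pool.Agent.H12.PAR.one_of_five hs (Pool.Agent.H12.PAR.rel1 k T L (jj y))
      (Pool.Agent.H12.PAR.rel2 (hq y)) r3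
      (hne y hy 0) (hne y hy 1) (hne y hy 2) (hne y hy 4) (hne y hy 3)
    rw [lam_neg, ← hδ] at h5
    rcases h5 with h5 | h5 | h5 | h5 | h5
    · exact ⟨0, h5⟩
    · exact ⟨1, h5⟩
    · exact ⟨2, h5⟩
    · exact ⟨4, h5⟩
    · exact ⟨3, h5⟩
  let g : ℤ → ℤ := fun y => if hx : ∃ t, lam (F t y ^ 3 + K) = δ then F hx.choose y else 0
  have hgi : ∀ y ∈ S, ∃ t, g y = F t y ∧ lam (F t y ^ 3 + K) = δ := by
    intro y hy
    have hx := hex y hy
    have e : g y = F hx.choose y := dif_pos hx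
    exact ⟨hx.choose, e, hx.choose_spec⟩
  have himg : ((S.image g : Finset ℤ) : Set ℤ) ⊆ {m : ℤ | |m| ≤ X ∧ m ∈ St Q K δ R} := by
    intro m hm
    obtain ⟨y, hy, rfl⟩ := Finset.mem_image.1 (Finset.mem_coe.1 hm)
    obtain ⟨t, ht, hl⟩ := hgi y hy
    rw [ht]
    refine ⟨?_, hl, fun e he => ⟨hneQ y hy t e he, hOm y hy t e he⟩⟩
    have h1 := hFb t y (hSI y hy)
    have h2 : (y : ℝ) ^ 6 ≤ (X : ℝ) / Cm := by
      rw [← hY6]
      have h0 : (0 : ℝ) ≤ y := by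
        have := hSI y hy
        exact_mod_cast (by omega : (0 : ℤ) ≤ y)
      exact pow_le_pow_left₀ h0 (hS1 y hy).2 6
    have h4 : (Cm : ℝ) * (y : ℝ) ^ 6 ≤ X := by
      rw [le_div_iff₀ hCr0] at h2
      linarith
    have h5 : Cm * y ^ 6 ≤ (X : ℤ) := by exact_mod_cast h4
    exact h1.trans h5
  have hfib : ∀ m ∈ S.image g, (S.filter (fun y => g y = m)).card ≤ 5 := by
    intro m _
    have hsub : S.filter (fun y => g y = m) ⊆
        Finset.univ.biUnion (fun t : Fin 5 => S.filter (fun y => F t y = m)) := by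
      intro y hy
      rw [Finset.mem_filter] at hy
      obtain ⟨t, ht, _⟩ := hgi y hy.1
      rw [Finset.mem_biUnion]
      exact ⟨t, Finset.mem_univ _, Finset.mem_filter.mpr ⟨hy.1, by rw [← ht]; exact hy.2⟩⟩
    refine (Finset.card_le_card hsub).trans ?_
    refine (Finset.card_biUnion_le_card_mul _ _ 1 (fun t _ => ?_)).trans (by simp)
    rw [Finset.card_le_one]
    intro x hx x' hx'
    rw [Finset.mem_filter] at hx hx'
    exact hF t x x' (hSI x hx.1) (hSI x' hx'.1) (hx.2.trans hx'.2.symm)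
  have hcard : S.card ≤ 5 * (S.image g).card := Finset.card_le_mul_card_image _ 5 hfib
  have h6 : (S.image g).card ≤ {m : ℤ | |m| ≤ X ∧ m ∈ St Q K δ R}.ncard := by
    have h1 := Set.ncard_le_ncard himg (fin_aux _ X)
    rwa [Set.ncard_coe_finset] at h1
  have h7 : (S.card : ℝ) ≤ 5 * (({m : ℤ | |m| ≤ X ∧ m ∈ St Q K δ R}.ncard : ℕ) : ℝ) := by
    exact_mod_cast hcard.trans (Nat.mul_le_mul_left 5 h6)
  have hlY : 0 < Real.log Y := Real.log_pos (by linarith)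
  have hlX : Real.log Y ≤ Real.log X := Real.log_le_log (by linarith) hYX
  have h8 : Y / Real.log X ^ E ≤ Y / Real.log Y ^ E :=
    div_le_div_of_nonneg_left hYn (by positivity) (pow_le_pow_left₀ hlY.le hlX E)
  have h9 : c / (5 * (Cm : ℝ) ^ ((1 : ℝ) / 6)) * ((X : ℝ) ^ ((1 : ℝ) / 6) / Real.log X ^ E) =
      c * (Y / Real.log X ^ E) / 5 := by
    rw [hYd, Real.div_rpow (Nat.cast_nonneg _) hCr0.le]
    have : (Cm : ℝ) ^ ((1 : ℝ) / 6) ≠ 0 := by positivity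
    field_simp
  rw [h9]
  have h10 := mul_le_mul_of_nonneg_left h8 hc.le
  linarith

end Pool.Agent.H26.AP
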