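import Pool.Agent.H26.AP.Cl
import Mathlib.Tactic.Simproc.Factors

/-!
The class of `k` itself for `2 ≤ k ≤ 100`.
-/

set_option autoImplicit false

namespace Pool.Agent.H26.AP

open Pool.Agent.H12.PAR (lam lam_mul lam_cases lam_sq Phi GG)

theorem good_crit {k p q : ℤ} (hk : k ≠ 0) (hp : p ≠ 0) (hq : q ≠ 0)
    (h1 : k * q ^ 3 + p ^ 3 ≠ 0) (h2 : k * q ^ 3 + 2 * p ^ 3 ≠ 0) (h4 : k * q ^ 3 + 4 * p ^ 3 ≠ 0)
    (h8 : k * q ^ 3 + 8 * p ^ 3 ≠ 0)
    (h : ¬ (lam (k * q ^ 3 + p ^ 3) = lam (k * q ^ 3 + 2 * p ^ 3) ∧
    lam (k * q ^ 3 + 2 * p ^ 3) = lam (k * q ^ 3 + 4 * p ^ 3) ∧
    lam (k * q ^ 3 + 4 * p ^ 3) = lam (k * q ^ 3 + 8 * p ^ 3))) : Good k :=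
  (good_or_ex hk).resolve_right fun hE => h (ex_eq hE hp hq h1 h2 h4 h8)

theorem good_small {k : ℤ} (h2 : 2 ≤ k) (h : k ≤ 100) (hc : ∀ a : ℤ, k ≠ a ^ 3) : Good k := by
  interval_cases k
  · exact good_crit (p := 1) (q := 1) (by norm_num) (by norm_num) (by norm_num) (by norm_num)
      (by norm_num) (by norm_num) (by norm_num) (by simp [lam, ArithmeticFunction.cardFactors_apply])
  · exact good_crit (p := 1) (q := 1) (by norm_num) (by norm_num) (by norm_num) (by norm_num)
      (by norm_num) (by norm_num) (by norm_num) (by simp [lam, ArithmeticFunction.cardFactors_apply])
  · exact good_crit (p := 1) (q := 1) (by norm_num) (by norm_num) (by norm_num) (by norm_num)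
      (by norm_num) (by norm_num) (by norm_num) (by simp [lam, ArithmeticFunction.cardFactors_apply])
  · exact good_crit (p := 1) (q := 1) (by norm_num) (by norm_num) (by norm_num) (by norm_num)
      (by norm_num) (by norm_num) (by norm_num) (by simp [lam, ArithmeticFunction.cardFactors_apply])
  · exact good_crit (p := 1) (q := 1) (by norm_num) (by norm_num) (by norm_num) (by norm_num)
      (by norm_num) (by norm_num) (by norm_num) (by simp [lam, ArithmeticFunction.cardFactors_apply])
  · exact good_crit (p := 1) (q := 1) (by norm_num) (by norm_num) (by norm_num) (by norm_num)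
      (by norm_num) (by norm_num) (by norm_num) (by simp [lam, ArithmeticFunction.cardFactors_apply])
  · exact absurd (by norm_num) (hc 2)
  · exact good_crit (p := 1) (q := 1) (by norm_num) (by norm_num) (by norm_num) (by norm_num)
      (by norm_num) (by norm_num) (by norm_num) (by simp [lam, ArithmeticFunction.cardFactors_apply])
  · exact good_crit (p := 1) (q := 1) (by norm_num) (by norm_num) (by norm_num) (by norm_num)
      (by norm_num) (by norm_num) (by norm_num) (by simp [lam, ArithmeticFunction.cardFactors_apply])
  · exact good_crit (p := 1) (q := 1) (by norm_num) (by norm_num) (by norm_num) (by norm_num)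
      (by norm_num) (by norm_num) (by norm_num) (by simp [lam, ArithmeticFunction.cardFactors_apply])
  · exact good_crit (p := 1) (q := 1) (by norm_num) (by norm_num) (by norm_num) (by norm_num)
      (by norm_num) (by norm_num) (by norm_num) (by simp [lam, ArithmeticFunction.cardFactors_apply])
  · exact good_crit (p := 1) (q := 1) (by norm_num) (by norm_num) (by norm_num) (by norm_num)
      (by norm_num) (by norm_num) (by norm_num) (by simp [lam, ArithmeticFunction.cardFactors_apply])
  · exact good_crit (p := 1) (q := 1) (by norm_num) (by norm_num) (by norm_num) (by norm_num)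
      (by norm_num) (by norm_num) (by norm_num) (by simp [lam, ArithmeticFunction.cardFactors_apply])
  · exact good_crit (p := 1) (q := 1) (by norm_num) (by norm_num) (by norm_num) (by norm_num)
      (by norm_num) (by norm_num) (by norm_num) (by simp [lam, ArithmeticFunction.cardFactors_apply])
  · exact good_crit (p := 1) (q := 1) (by norm_num) (by norm_num) (by norm_num) (by norm_num)
      (by norm_num) (by norm_num) (by norm_num) (by simp [lam, ArithmeticFunction.cardFactors_apply])
  · exact good_crit (p := 1) (q := 1) (by norm_num) (by norm_num) (by norm_num) (by norm_num)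
      (by norm_num) (by norm_num) (by norm_num) (by simp [lam, ArithmeticFunction.cardFactors_apply])
  · exact good_crit (p := 1) (q := 1) (by norm_num) (by norm_num) (by norm_num) (by norm_num)
      (by norm_num) (by norm_num) (by norm_num) (by simp [lam, ArithmeticFunction.cardFactors_apply])
  · exact good_crit (p := 1) (q := 1) (by norm_num) (by norm_num) (by norm_num) (by norm_num)
      (by norm_num) (by norm_num) (by norm_num) (by simp [lam, ArithmeticFunction.cardFactors_apply])
  · exact good_crit (p := 1) (q := 1) (by norm_num) (by norm_num) (by norm_num) (by norm_num)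
      (by norm_num) (by norm_num) (by norm_num) (by simp [lam, ArithmeticFunction.cardFactors_apply])
  · exact good_crit (p := 1) (q := 1) (by norm_num) (by norm_num) (by norm_num) (by norm_num)
      (by norm_num) (by norm_num) (by norm_num) (by simp [lam, ArithmeticFunction.cardFactors_apply])
  · exact good_crit (p := 1) (q := 1) (by norm_num) (by norm_num) (by norm_num) (by norm_num)
      (by norm_num) (by norm_num) (by norm_num) (by simp [lam, ArithmeticFunction.cardFactors_apply])
  · exact good_crit (p := 1) (q := 1) (by norm_num) (by norm_num) (by norm_num) (by norm_num)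
      (by norm_num) (by norm_num) (by norm_num) (by simp [lam, ArithmeticFunction.cardFactors_apply])
  · exact good_crit (p := 1) (q := 1) (by norm_num) (by norm_num) (by norm_num) (by norm_num)
      (by norm_num) (by norm_num) (by norm_num) (by simp [lam, ArithmeticFunction.cardFactors_apply])
  · exact good_crit (p := 1) (q := 1) (by norm_num) (by norm_num) (by norm_num) (by norm_num)
      (by norm_num) (by norm_num) (by norm_num) (by simp [lam, ArithmeticFunction.cardFactors_apply])
  · exact good_crit (p := 1) (q := 1) (by norm_num) (by norm_num) (by norm_num) (by norm_num)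
      (by norm_num) (by norm_num) (by norm_num) (by simp [lam, ArithmeticFunction.cardFactors_apply])
  · exact absurd (by norm_num) (hc 3)
  · exact good_crit (p := 1) (q := 1) (by norm_num) (by norm_num) (by norm_num) (by norm_num)
      (by norm_num) (by norm_num) (by norm_num) (by simp [lam, ArithmeticFunction.cardFactors_apply])
  · exact good_crit (p := 1) (q := 1) (by norm_num) (by norm_num) (by norm_num) (by norm_num)
      (by norm_num) (by norm_num) (by norm_num) (by simp [lam, ArithmeticFunction.cardFactors_apply])
  · exact good_crit (p := 1) (q := 1) (by norm_num) (by norm_num) (by norm_num) (by norm_num)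
      (by norm_num) (by norm_num) (by norm_num) (by simp [lam, ArithmeticFunction.cardFactors_apply])
  · exact good_crit (p := 1) (q := 1) (by norm_num) (by norm_num) (by norm_num) (by norm_num)
      (by norm_num) (by norm_num) (by norm_num) (by simp [lam, ArithmeticFunction.cardFactors_apply])
  · exact good_crit (p := -1) (q := 1) (by norm_num) (by norm_num) (by norm_num) (by norm_num)
      (by norm_num) (by norm_num) (by norm_num) (by simp [lam, ArithmeticFunction.cardFactors_apply])
  · exact good_crit (p := 1) (q := 1) (by norm_num) (by norm_num) (by norm_num) (by norm_num)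
      (by norm_num) (by norm_num) (by norm_num) (by simp [lam, ArithmeticFunction.cardFactors_apply])
  · exact good_crit (p := 1) (q := 1) (by norm_num) (by norm_num) (by norm_num) (by norm_num)
      (by norm_num) (by norm_num) (by norm_num) (by simp [lam, ArithmeticFunction.cardFactors_apply])
  · exact good_crit (p := 1) (q := 1) (by norm_num) (by norm_num) (by norm_num) (by norm_num)
      (by norm_num) (by norm_num) (by norm_num) (by simp [lam, ArithmeticFunction.cardFactors_apply])
  · exact good_crit (p := 1) (q := 1) (by norm_num) (by norm_num) (by norm_num) (by norm_num)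
      (by norm_num) (by norm_num) (by norm_num) (by simp [lam, ArithmeticFunction.cardFactors_apply])
  · exact good_crit (p := 1) (q := 1) (by norm_num) (by norm_num) (by norm_num) (by norm_num)
      (by norm_num) (by norm_num) (by norm_num) (by simp [lam, ArithmeticFunction.cardFactors_apply])
  · exact good_crit (p := 1) (q := 1) (by norm_num) (by norm_num) (by norm_num) (by norm_num)
      (by norm_num) (by norm_num) (by norm_num) (by simp [lam, ArithmeticFunction.cardFactors_apply])
  · exact good_crit (p := 1) (q := 1) (by norm_num) (by norm_num) (by norm_num) (by norm_num)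
      (by norm_num) (by norm_num) (by norm_num) (by simp [lam, ArithmeticFunction.cardFactors_apply])
  · exact good_crit (p := -1) (q := 1) (by norm_num) (by norm_num) (by norm_num) (by norm_num)
      (by norm_num) (by norm_num) (by norm_num) (by simp [lam, ArithmeticFunction.cardFactors_apply])
  · exact good_crit (p := 1) (q := 1) (by norm_num) (by norm_num) (by norm_num) (by norm_num)
      (by norm_num) (by norm_num) (by norm_num) (by simp [lam, ArithmeticFunction.cardFactors_apply])
  · exact good_crit (p := 1) (q := 1) (by norm_num) (by norm_num) (by norm_num) (by norm_num)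
      (by norm_num) (by norm_num) (by norm_num) (by simp [lam, ArithmeticFunction.cardFactors_apply])
  · exact good_crit (p := 1) (q := 1) (by norm_num) (by norm_num) (by norm_num) (by norm_num)
      (by norm_num) (by norm_num) (by norm_num) (by simp [lam, ArithmeticFunction.cardFactors_apply])
  · exact good_crit (p := 1) (q := 1) (by norm_num) (by norm_num) (by norm_num) (by norm_num)
      (by norm_num) (by norm_num) (by norm_num) (by simp [lam, ArithmeticFunction.cardFactors_apply])
  · exact good_crit (p := 1) (q := 1) (by norm_num) (by norm_num) (by norm_num) (by norm_num)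
      (by norm_num) (by norm_num) (by norm_num) (by simp [lam, ArithmeticFunction.cardFactors_apply])
  · exact good_crit (p := 1) (q := 1) (by norm_num) (by norm_num) (by norm_num) (by norm_num)
      (by norm_num) (by norm_num) (by norm_num) (by simp [lam, ArithmeticFunction.cardFactors_apply])
  · exact good_crit (p := 1) (q := 1) (by norm_num) (by norm_num) (by norm_num) (by norm_num)
      (by norm_num) (by norm_num) (by norm_num) (by simp [lam, ArithmeticFunction.cardFactors_apply])
  · exact good_crit (p := 1) (q := 1) (by norm_num) (by norm_num) (by norm_num) (by norm_num)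
      (by norm_num) (by norm_num) (by norm_num) (by simp [lam, ArithmeticFunction.cardFactors_apply])
  · exact good_crit (p := 1) (q := 1) (by norm_num) (by norm_num) (by norm_num) (by norm_num)
      (by norm_num) (by norm_num) (by norm_num) (by simp [lam, ArithmeticFunction.cardFactors_apply])
  · exact good_crit (p := 1) (q := 1) (by norm_num) (by norm_num) (by norm_num) (by norm_num)
      (by norm_num) (by norm_num) (by norm_num) (by simp [lam, ArithmeticFunction.cardFactors_apply])
  · exact good_crit (p := 1) (q := 1) (by norm_num) (by norm_num) (by norm_num) (by norm_num)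
      (by norm_num) (by norm_num) (by norm_num) (by simp [lam, ArithmeticFunction.cardFactors_apply])
  · exact good_crit (p := 1) (q := 1) (by norm_num) (by norm_num) (by norm_num) (by norm_num)
      (by norm_num) (by norm_num) (by norm_num) (by simp [lam, ArithmeticFunction.cardFactors_apply])
  · exact good_crit (p := 1) (q := 1) (by norm_num) (by norm_num) (by norm_num) (by norm_num)
      (by norm_num) (by norm_num) (by norm_num) (by simp [lam, ArithmeticFunction.cardFactors_apply])
  · exact good_crit (p := -1) (q := 1) (by norm_num) (by norm_num) (by norm_num) (by norm_num)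
      (by norm_num) (by norm_num) (by norm_num) (by simp [lam, ArithmeticFunction.cardFactors_apply])
  · exact good_crit (p := 1) (q := 1) (by norm_num) (by norm_num) (by norm_num) (by norm_num)
      (by norm_num) (by norm_num) (by norm_num) (by simp [lam, ArithmeticFunction.cardFactors_apply])
  · exact good_crit (p := -1) (q := 1) (by norm_num) (by norm_num) (by norm_num) (by norm_num)
      (by norm_num) (by norm_num) (by norm_num) (by simp [lam, ArithmeticFunction.cardFactors_apply])
  · exact good_crit (p := 1) (q := 1) (by norm_num) (by norm_num) (by norm_num) (by norm_num)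
      (by norm_num) (by norm_num) (by norm_num) (by simp [lam, ArithmeticFunction.cardFactors_apply])
  · exact good_crit (p := 1) (q := 1) (by norm_num) (by norm_num) (by norm_num) (by norm_num)
      (by norm_num) (by norm_num) (by norm_num) (by simp [lam, ArithmeticFunction.cardFactors_apply])
  · exact good_crit (p := 1) (q := 1) (by norm_num) (by norm_num) (by norm_num) (by norm_num)
      (by norm_num) (by norm_num) (by norm_num) (by simp [lam, ArithmeticFunction.cardFactors_apply])
  · exact good_crit (p := 1) (q := 1) (by norm_num) (by norm_num) (by norm_num) (by norm_num)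
      (by norm_num) (by norm_num) (by norm_num) (by simp [lam, ArithmeticFunction.cardFactors_apply])
  · exact good_crit (p := 1) (q := 1) (by norm_num) (by norm_num) (by norm_num) (by norm_num)
      (by norm_num) (by norm_num) (by norm_num) (by simp [lam, ArithmeticFunction.cardFactors_apply])
  · exact good_crit (p := 1) (q := 1) (by norm_num) (by norm_num) (by norm_num) (by norm_num)
      (by norm_num) (by norm_num) (by norm_num) (by simp [lam, ArithmeticFunction.cardFactors_apply])
  · exact good_crit (p := 1) (q := 1) (by norm_num) (by norm_num) (by norm_num) (by norm_num)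
      (by norm_num) (by norm_num) (by norm_num) (by simp [lam, ArithmeticFunction.cardFactors_apply])
  · exact absurd (by norm_num) (hc 4)
  · exact good_crit (p := 1) (q := 1) (by norm_num) (by norm_num) (by norm_num) (by norm_num)
      (by norm_num) (by norm_num) (by norm_num) (by simp [lam, ArithmeticFunction.cardFactors_apply])
  · exact good_crit (p := 1) (q := 1) (by norm_num) (by norm_num) (by norm_num) (by norm_num)
      (by norm_num) (by norm_num) (by norm_num) (by simp [lam, ArithmeticFunction.cardFactors_apply])
  · exact good_crit (p := 1) (q := 1) (by norm_num) (by norm_num) (by norm_num) (by norm_num)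
      (by norm_num) (by norm_num) (by norm_num) (by simp [lam, ArithmeticFunction.cardFactors_apply])
  · exact good_crit (p := 1) (q := 1) (by norm_num) (by norm_num) (by norm_num) (by norm_num)
      (by norm_num) (by norm_num) (by norm_num) (by simp [lam, ArithmeticFunction.cardFactors_apply])
  · exact good_crit (p := 1) (q := 1) (by norm_num) (by norm_num) (by norm_num) (by norm_num)
      (by norm_num) (by norm_num) (by norm_num) (by simp [lam, ArithmeticFunction.cardFactors_apply])
  · exact good_crit (p := 1) (q := 1) (by norm_num) (by norm_num) (by norm_num) (by norm_num)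
      (by norm_num) (by norm_num) (by norm_num) (by simp [lam, ArithmeticFunction.cardFactors_apply])
  · exact good_crit (p := -1) (q := 1) (by norm_num) (by norm_num) (by norm_num) (by norm_num)
      (by norm_num) (by norm_num) (by norm_num) (by simp [lam, ArithmeticFunction.cardFactors_apply])
  · exact good_crit (p := 1) (q := 1) (by norm_num) (by norm_num) (by norm_num) (by norm_num)
      (by norm_num) (by norm_num) (by norm_num) (by simp [lam, ArithmeticFunction.cardFactors_apply])
  · exact good_crit (p := 1) (q := 1) (by norm_num) (by norm_num) (by norm_num) (by norm_num)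
      (by norm_num) (by norm_num) (by norm_num) (by simp [lam, ArithmeticFunction.cardFactors_apply])
  · exact good_crit (p := 1) (q := 1) (by norm_num) (by norm_num) (by norm_num) (by norm_num)
      (by norm_num) (by norm_num) (by norm_num) (by simp [lam, ArithmeticFunction.cardFactors_apply])
  · exact good_crit (p := 1) (q := 1) (by norm_num) (by norm_num) (by norm_num) (by norm_num)
      (by norm_num) (by norm_num) (by norm_num) (by simp [lam, ArithmeticFunction.cardFactors_apply])
  · exact good_crit (p := 1) (q := 1) (by norm_num) (by norm_num) (by norm_num) (by norm_num)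
      (by norm_num) (by norm_num) (by norm_num) (by simp [lam, ArithmeticFunction.cardFactors_apply])
  · exact good_crit (p := 1) (q := 1) (by norm_num) (by norm_num) (by norm_num) (by norm_num)
      (by norm_num) (by norm_num) (by norm_num) (by simp [lam, ArithmeticFunction.cardFactors_apply])
  · exact good_crit (p := 1) (q := 1) (by norm_num) (by norm_num) (by norm_num) (by norm_num)
      (by norm_num) (by norm_num) (by norm_num) (by simp [lam, ArithmeticFunction.cardFactors_apply])
  · exact good_crit (p := 1) (q := 1) (by norm_num) (by norm_num) (by norm_num) (by norm_num)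
      (by norm_num) (by norm_num) (by norm_num) (by simp [lam, ArithmeticFunction.cardFactors_apply])
  · exact good_crit (p := 1) (q := 2) (by norm_num) (by norm_num) (by norm_num) (by norm_num)
      (by norm_num) (by norm_num) (by norm_num) (by simp [lam, ArithmeticFunction.cardFactors_apply])
  · exact good_crit (p := 1) (q := 1) (by norm_num) (by norm_num) (by norm_num) (by norm_num)
      (by norm_num) (by norm_num) (by norm_num) (by simp [lam, ArithmeticFunction.cardFactors_apply])
  · exact good_crit (p := 1) (q := 1) (by norm_num) (by norm_num) (by norm_num) (by norm_num)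
      (by norm_num) (by norm_num) (by norm_num) (by simp [lam, ArithmeticFunction.cardFactors_apply])
  · exact good_crit (p := -1) (q := 1) (by norm_num) (by norm_num) (by norm_num) (by norm_num)
      (by norm_num) (by norm_num) (by norm_num) (by simp [lam, ArithmeticFunction.cardFactors_apply])
  · exact good_crit (p := 1) (q := 1) (by norm_num) (by norm_num) (by norm_num) (by norm_num)
      (by norm_num) (by norm_num) (by norm_num) (by simp [lam, ArithmeticFunction.cardFactors_apply])
  · exact good_crit (p := 1) (q := 1) (by norm_num) (by norm_num) (by norm_num) (by norm_num)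
      (by norm_num) (by norm_num) (by norm_num) (by simp [lam, ArithmeticFunction.cardFactors_apply])
  · exact good_crit (p := -1) (q := 1) (by norm_num) (by norm_num) (by norm_num) (by norm_num)
      (by norm_num) (by norm_num) (by norm_num) (by simp [lam, ArithmeticFunction.cardFactors_apply])
  · exact good_crit (p := 1) (q := 1) (by norm_num) (by norm_num) (by norm_num) (by norm_num)
      (by norm_num) (by norm_num) (by norm_num) (by simp [lam, ArithmeticFunction.cardFactors_apply])
  · exact good_crit (p := 1) (q := 1) (by norm_num) (by norm_num) (by norm_num) (by norm_num)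
      (by norm_num) (by norm_num) (by norm_num) (by simp [lam, ArithmeticFunction.cardFactors_apply])
  · exact good_crit (p := 1) (q := 1) (by norm_num) (by norm_num) (by norm_num) (by norm_num)
      (by norm_num) (by norm_num) (by norm_num) (by simp [lam, ArithmeticFunction.cardFactors_apply])
  · exact good_crit (p := 1) (q := 1) (by norm_num) (by norm_num) (by norm_num) (by norm_num)
      (by norm_num) (by norm_num) (by norm_num) (by simp [lam, ArithmeticFunction.cardFactors_apply])
  · exact good_crit (p := 1) (q := 1) (by norm_num) (by norm_num) (by norm_num) (by norm_num)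
      (by norm_num) (by norm_num) (by norm_num) (by simp [lam, ArithmeticFunction.cardFactors_apply])
  · exact good_crit (p := 1) (q := 2) (by norm_num) (by norm_num) (by norm_num) (by norm_num)
      (by norm_num) (by norm_num) (by norm_num) (by simp [lam, ArithmeticFunction.cardFactors_apply])
  · exact good_crit (p := 1) (q := 1) (by norm_num) (by norm_num) (by norm_num) (by norm_num)
      (by norm_num) (by norm_num) (by norm_num) (by simp [lam, ArithmeticFunction.cardFactors_apply])
  · exact good_crit (p := 1) (q := 1) (by norm_num) (by norm_num) (by norm_num) (by norm_num)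
      (by norm_num) (by norm_num) (by norm_num) (by simp [lam, ArithmeticFunction.cardFactors_apply])
  · exact good_crit (p := 1) (q := 1) (by norm_num) (by norm_num) (by norm_num) (by norm_num)
      (by norm_num) (by norm_num) (by norm_num) (by simp [lam, ArithmeticFunction.cardFactors_apply])
  · exact good_crit (p := 1) (q := 1) (by norm_num) (by norm_num) (by norm_num) (by norm_num)
      (by norm_num) (by norm_num) (by norm_num) (by simp [lam, ArithmeticFunction.cardFactors_apply])
  · exact good_crit (p := -1) (q := 1) (by norm_num) (by norm_num) (by norm_num) (by norm_num)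
      (by norm_num) (by norm_num) (by norm_num) (by simp [lam, ArithmeticFunction.cardFactors_apply])
  · exact good_crit (p := 1) (q := 1) (by norm_num) (by norm_num) (by norm_num) (by norm_num)
      (by norm_num) (by norm_num) (by norm_num) (by simp [lam, ArithmeticFunction.cardFactors_apply])
  · exact good_crit (p := 1) (q := 1) (by norm_num) (by norm_num) (by norm_num) (by norm_num)
      (by norm_num) (by norm_num) (by norm_num) (by simp [lam, ArithmeticFunction.cardFactors_apply])
  · exact good_crit (p := 1) (q := 1) (by norm_num) (by norm_num) (by norm_num) (by norm_num)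
      (by norm_num) (by norm_num) (by norm_num) (by simp [lam, ArithmeticFunction.cardFactors_apply])

end Pool.Agent.H26.AP
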