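import Pool.Agent.H92.AP.Siv

/-!
Values of an integer polynomial with boundedly many prime factors.
-/

set_option autoImplicit false

namespace Pool.Agent.H26.AP

open Polynomial Finset

/-- number of prime factors of |x| -/
def Om (x : ℤ) : ℕ := ArithmeticFunction.cardFactors x.natAbs

theorem Om_mul {x y : ℤ} (hx : x ≠ 0) (hy : y ≠ 0) : Om (x * y) = Om x + Om y := by
  unfold Om
  rw [Int.natAbs_mul, ArithmeticFunction.cardFactors_mul (Int.natAbs_ne_zero.mpr hx)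
    (Int.natAbs_ne_zero.mpr hy)]

theorem Om_le_of_dvd {x y : ℤ} (hy : y ≠ 0) (h : x ∣ y) : Om x ≤ Om y := by
  obtain ⟨z, rfl⟩ := h
  rw [Om_mul (left_ne_zero_of_mul hy) (right_ne_zero_of_mul hy)]
  omega

/-- if all prime factors of t are at least z then z ^ Omega(t) ≤ t -/
theorem pow_Om_le {t : ℕ} (ht : t ≠ 0) {z : ℝ} (hz : 0 ≤ z)
    (h : ∀ p : ℕ, p.Prime → p ∣ t → z ≤ p) : z ^ (ArithmeticFunction.cardFactors t) ≤ t := by
  rw [ArithmeticFunction.cardFactors_apply]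
  have key : ∀ l : List ℕ, (∀ p ∈ l, z ≤ (p : ℝ)) → z ^ l.length ≤ ((l.prod : ℕ) : ℝ) := by
    intro l
    induction l with
    | nil => intro _; simp
    | cons b l ih =>
      intro h
      rw [List.length_cons, List.prod_cons, pow_succ, Nat.cast_mul, mul_comm]
      exact mul_le_mul (h b List.mem_cons_self) (ih fun p hp => h p (List.mem_cons_of_mem _ hp))
        (by positivity) (by positivity)
  have h1 := key t.primeFactorsList fun p hp =>
    h p (Nat.prime_of_mem_primeFactorsList hp) (Nat.dvd_of_mem_primeFactorsList hp)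
  rwa [Nat.prod_primeFactorsList ht] at h1

/-- the classes of the roots modulo p -/
noncomputable def RR (P : ℤ[X]) (p : ℕ) : Finset ℤ := (Finset.Ico (0 : ℤ) p).filter fun r => (p : ℤ) ∣ P.eval r

theorem RR_card (P : ℤ[X]) (p : ℕ) (hp : p.Prime) (y0 : ℤ) (h : ¬ (p : ℤ) ∣ P.eval y0) :
    (RR P p).card ≤ P.natDegree := by
  classical
  haveI := Fact.mk hp
  obtain ⟨Q, hQd⟩ : ∃ Q : (ZMod p)[X], Q = P.map (Int.castRingHom (ZMod p)) := ⟨_, rfl⟩
  have hev : ∀ r : ℤ, Q.eval (r : ZMod p) = ((P.eval r : ℤ) : ZMod p) := by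
    intro r
    rw [hQd, Polynomial.eval_intCast_map]
    rfl
  have hQ : Q ≠ 0 := by
    intro h0
    apply h
    have h1 := hev y0
    rw [h0, eval_zero] at h1
    exact (ZMod.intCast_zmod_eq_zero_iff_dvd _ _).1 h1.symm
  have hinj : Set.InjOn (fun r : ℤ => (r : ZMod p)) (RR P p) := by
    intro r hr s hs e
    rw [mem_coe, RR, mem_filter, mem_Ico] at hr hs
    have h1 := (ZMod.intCast_eq_intCast_iff r s p).1 e
    unfold Int.ModEq at h1
    rwa [Int.emod_eq_of_lt hr.1.1 hr.1.2, Int.emod_eq_of_lt hs.1.1 hs.1.2] at h1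
  calc (RR P p).card = ((RR P p).image (fun r : ℤ => (r : ZMod p))).card :=
        (card_image_of_injOn hinj).symm
    _ ≤ Q.roots.toFinset.card := by
        apply card_le_card
        intro x hx
        obtain ⟨r, hr, rfl⟩ := mem_image.1 hx
        rw [Multiset.mem_toFinset, mem_roots hQ, IsRoot.def, hev]
        exact (ZMod.intCast_zmod_eq_zero_iff_dvd _ _).2 (mem_filter.1 hr).2
    _ ≤ Multiset.card Q.roots := Multiset.toFinset_card_le _
    _ ≤ Q.natDegree := card_roots' Q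
    _ ≤ P.natDegree := by rw [hQd]; exact natDegree_map_le

theorem growth (P : ℤ[X]) : ∃ C : ℝ, 0 ≤ C ∧ ∀ y : ℤ, 1 ≤ y →
    |((P.eval y : ℤ) : ℝ)| ≤ C * (y : ℝ) ^ P.natDegree := by
  refine ⟨∑ i ∈ range (P.natDegree + 1), |((P.coeff i : ℤ) : ℝ)|, sum_nonneg fun i _ => abs_nonneg _, ?_⟩
  intro y hy
  have hy1 : (1 : ℝ) ≤ y := by exact_mod_cast hy
  rw [eval_eq_sum_range, Int.cast_sum]
  refine (abs_sum_le_sum_abs _ _).trans ?_
  rw [sum_mul]
  refine sum_le_sum fun i hi => ?_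
  rw [Int.cast_mul, Int.cast_pow, abs_mul, abs_of_nonneg (by positivity : (0 : ℝ) ≤ (y : ℝ) ^ i)]
  exact mul_le_mul_of_nonneg_left (pow_le_pow_right₀ hy1 (by have := mem_range.1 hi; omega)) (abs_nonneg _)

/-- a positive proportion (up to powers of log) of the values has boundedly many prime factors -/
theorem bounded_values (P : ℤ[X]) (y0 : ℤ) (hP : P.eval y0 ≠ 0) (I0 : ℕ) :
    ∃ (R E : ℕ) (c Y0 : ℝ), 0 < c ∧ 3 ≤ Y0 ∧ ∀ Y : ℝ, Y0 ≤ Y → ∃ S : Finset ℤ,
      (∀ y ∈ S, (I0 : ℤ) < y ∧ (y : ℝ) ≤ Y) ∧ c * (Y / Real.log Y ^ E) ≤ S.card ∧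
      ∀ y ∈ S, P.eval y ≠ 0 ∧ Om (P.eval y) ≤ R := by
  obtain ⟨w0, hw0, hsv⟩ := Pool.Agent.H92.AP.sv P.natDegree
  obtain ⟨w, hw⟩ : ∃ w : ℕ, w = max w0 (P.eval y0).natAbs := ⟨_, rfl⟩
  have hww0 : w0 ≤ w := by rw [hw]; exact le_max_left _ _
  have hwP : (P.eval y0).natAbs ≤ w := by rw [hw]; exact le_max_right _ _
  have hPn : 0 < (P.eval y0).natAbs := Int.natAbs_pos.2 hP
  obtain ⟨m, hm⟩ : ∃ m : ℕ, m = (P.eval y0).natAbs * w.factorial := ⟨_, rfl⟩
  have hm0 : 0 < m := by rw [hm]; exact Nat.mul_pos hPn (Nat.factorial_pos _)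
  have hndvd : ∀ p : ℕ, p.Prime → w < p → ¬ (p : ℤ) ∣ P.eval y0 := by
    intro p hp hwp h
    have h1 := Nat.le_of_dvd hPn (Int.natCast_dvd.1 h)
    omega
  have hco : ∀ p : ℕ, p.Prime → w < p → m.Coprime p := by
    intro p hp hwp
    rw [hm, Nat.coprime_comm, hp.coprime_iff_not_dvd, hp.dvd_mul, not_or]
    refine ⟨fun h => hndvd p hp hwp (Int.natCast_dvd.2 h), fun h => ?_⟩
    have h1 := hp.dvd_factorial.1 h
    omega
  obtain ⟨a, δ, Y1, ha0, ha1, hδ, hY1, hs⟩ := hsv w m hww0 hm0 hco (1 / 2) (by norm_num)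
  obtain ⟨C, hC, hgr⟩ := growth P
  obtain ⟨N, hN⟩ : ∃ N : ℕ, N = P.natDegree := ⟨_, rfl⟩
  refine ⟨Om (P.eval y0) + ⌈((N : ℝ) + 1) / a⌉₊, 2 * (N + 1), δ, max Y1 (max (2 * I0 + 2) (C + 1)), hδ,
    hY1.trans (le_max_left _ _), ?_⟩
  intro Y hY
  have hYY1 : Y1 ≤ Y := (le_max_left _ _).trans hY
  have hYI : 2 * (I0 : ℝ) + 2 ≤ Y := ((le_max_left _ _).trans (le_max_right _ _)).trans hY
  have hYC : C + 1 ≤ Y := ((le_max_right _ _).trans (le_max_right _ _)).trans hY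
  have hY3 : 3 ≤ Y := hY1.trans hYY1
  have hY0 : 0 < Y := by linarith
  obtain ⟨S, hS1, hS2, hS3⟩ := hs Y hYY1 (RR P) (fun p hp hwp => ⟨RR_card P p hp y0 (hndvd p hp hwp),
    fun r hr => mem_Ico.1 (mem_filter.1 hr).1⟩) I0 ⌊Y⌋ y0 (by
      have h1 := Int.lt_floor_add_one Y
      push_cast
      linarith)
  refine ⟨S, ?_, by rw [hN]; exact hS2, ?_⟩
  · intro y hy
    have h1 := mem_Ioc.1 (hS1 hy)
    exact ⟨h1.1, Int.le_floor.1 h1.2⟩
  · intro y hy
    have hyI := mem_Ioc.1 (hS1 hy)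
    have hyY : (y : ℝ) ≤ Y := Int.le_floor.1 hyI.2
    have hy1 : 1 ≤ y := by
      have : (0 : ℤ) ≤ I0 := Int.natCast_nonneg _
      omega
    obtain ⟨hyc, hyp⟩ := hS3 y hy
    -- factorisation
    have h1 : P.eval y0 * (w.factorial : ℤ) ∣ P.eval y - P.eval y0 := by
      have h2 : (m : ℤ) ∣ y - y0 := hyc.symm.dvd
      have h3 : y - y0 ∣ P.eval y - P.eval y0 := Polynomial.sub_dvd_eval_sub y y0 P
      have h4 : P.eval y0 * (w.factorial : ℤ) ∣ (m : ℤ) := by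
        rw [hm]
        push_cast
        exact mul_dvd_mul ((dvd_abs _ _).2 dvd_rfl) dvd_rfl
      exact (h4.trans h2).trans h3
    obtain ⟨z, hz⟩ := h1
    obtain ⟨t, ht⟩ : ∃ t : ℤ, t = 1 + w.factorial * z := ⟨_, rfl⟩
    have hPy : P.eval y = P.eval y0 * t := by
      rw [ht]
      linear_combination hz
    have hsmall : ∀ p : ℕ, p.Prime → (p : ℤ) ∣ t → w < p := by
      intro p hp hpt
      by_contra hle
      have h5 : (p : ℤ) ∣ (w.factorial : ℤ) := by
        exact_mod_cast hp.dvd_factorial.2 (not_lt.1 hle)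
      have h6 : (p : ℤ) ∣ 1 := by
        have h7 : (1 : ℤ) = t - w.factorial * z := by rw [ht]; ring
        rw [h7]
        exact dvd_sub hpt (h5.mul_right z)
      have h8 : p ∣ 1 := by exact_mod_cast h6
      exact hp.one_lt.ne' (Nat.dvd_one.1 h8)
    have ht0 : t ≠ 0 := by
      intro h0
      have h5 := hsmall 2 Nat.prime_two (by rw [h0]; exact dvd_zero _)
      omega
    have hlarge : ∀ p : ℕ, p.Prime → p ∣ t.natAbs → Y ^ a ≤ p := by
      intro p hp hpt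
      by_contra hle
      have hpt' : (p : ℤ) ∣ t := Int.natCast_dvd.2 hpt
      have hpp : (0 : ℤ) < p := by exact_mod_cast hp.pos
      refine hyp p hp (hsmall p hp hpt') (not_le.1 hle).le (mem_filter.2 ⟨mem_Ico.2
        ⟨Int.emod_nonneg _ hpp.ne', Int.emod_lt_of_pos _ hpp⟩, ?_⟩)
      have h5 : (p : ℤ) ∣ P.eval y := by rw [hPy]; exact hpt'.mul_left _
      have h6 : y % (p : ℤ) - y ∣ P.eval (y % (p : ℤ)) - P.eval y := Polynomial.sub_dvd_eval_sub _ _ P
      have h7 : (p : ℤ) ∣ y % (p : ℤ) - y := by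
        rw [Int.emod_def]
        exact ⟨-(y / p), by ring⟩
      have h8 := dvd_add (h7.trans h6) h5
      rwa [sub_add_cancel] at h8
    have hPy0 : P.eval y ≠ 0 := by rw [hPy]; exact mul_ne_zero hP ht0
    refine ⟨hPy0, ?_⟩
    rw [hPy, Om_mul hP ht0]
    refine Nat.add_le_add_left ?_ _
    have hle := pow_Om_le (Int.natAbs_ne_zero.2 ht0) (by positivity : (0 : ℝ) ≤ Y ^ a) hlarge
    have h9 : ((t.natAbs : ℕ) : ℝ) ≤ Y ^ ((N : ℝ) + 1) := by
      have h10 : t.natAbs ≤ (P.eval y).natAbs := by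
        rw [hPy, Int.natAbs_mul]
        exact Nat.le_mul_of_pos_left _ hPn
      calc ((t.natAbs : ℕ) : ℝ) ≤ (((P.eval y).natAbs : ℕ) : ℝ) := by exact_mod_cast h10
        _ = |((P.eval y : ℤ) : ℝ)| := by rw [Nat.cast_natAbs, Int.cast_abs]
        _ ≤ C * (y : ℝ) ^ P.natDegree := hgr y hy1
        _ ≤ Y * Y ^ P.natDegree := by
            have hy0 : (0 : ℝ) ≤ y := by
              have : (1 : ℝ) ≤ y := by exact_mod_cast hy1
              linarith
            exact mul_le_mul (by linarith) (pow_le_pow_left₀ hy0 hyY _) (by positivity) hY0.le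
        _ = Y ^ ((N : ℝ) + 1) := by
            rw [← hN, Real.rpow_add hY0, Real.rpow_one, Real.rpow_natCast, mul_comm]
    have h11 : Y ^ (a * (Om t : ℝ)) ≤ Y ^ ((N : ℝ) + 1) := by
      rw [Real.rpow_mul hY0.le, Real.rpow_natCast]
      exact hle.trans h9
    have h12 : a * (Om t : ℝ) ≤ (N : ℝ) + 1 := by
      by_contra hcon
      exact absurd h11 (not_le.2 (Real.rpow_lt_rpow_of_exponent_lt (by linarith) (not_le.1 hcon)))
    have h13 : (Om t : ℝ) ≤ ((N : ℝ) + 1) / a := by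
      rw [le_div_iff₀ ha0]
      linarith
    exact_mod_cast h13.trans (Nat.le_ceil _)

end Pool.Agent.H26.AP
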